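import Pool.Agent.HP42.FS.Main

/-!
# The order of magnitude
-/

set_option autoImplicit false
open Finset

namespace Pool.Agent.HP42.FS

open Pool.Agent.W65.FS

lemma mem_WW' (n z : ℕ) (X : Fin 4 → ℤ) : X ∈ WW n z ↔
    (∑ i, X i ^ 2 = n ∧ gc X = 1) ∧ ∀ l : ℕ, l.Prime → l ≤ z → ¬ (l : ℤ) ∣ ff X := by
  classical
  unfold WW
  rw [Finset.mem_filter, mem_preps]

/-- a representation with `p` and `p - 2` prime is primitive -/
lemma gc_one_of_prime (X : Fin 4 → ℤ) (hp : (pf X).toNat.Prime) : gc X = 1 := by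
  by_contra h
  have hg : ∃ q : ℕ, q.Prime ∧ q ∣ gc X := Nat.exists_prime_and_dvd h
  obtain ⟨q, hq, hqg⟩ := hg
  rw [dvd_gc] at hqg
  have h1 : ((q : ℤ)) ^ 2 ∣ pf X := by
    unfold pf
    have h2 : ∀ i, ((q : ℤ)) ^ 2 ∣ X i ^ 2 := fun i => pow_dvd_pow_of_dvd (hqg i) 2
    exact dvd_add (dvd_add (dvd_add (h2 0) ((h2 1).mul_left _)) ((h2 2).mul_left _)) ((h2 3).mul_left _)
  have hpos : 0 ≤ pf X := by
    unfold pf; positivity
  have h2 : ((pf X).toNat : ℤ) = pf X := Int.toNat_of_nonneg hpos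
  rw [← h2] at h1
  have h3 : q ^ 2 ∣ (pf X).toNat := by exact_mod_cast h1
  have h4 : q ∣ (pf X).toNat := (dvd_pow_self q (by norm_num)).trans h3
  have h5 := (Nat.prime_dvd_prime_iff_eq hq hp).1 h4
  rw [← h5] at h3
  have h6 := Nat.le_of_dvd hq.pos h3
  have := hq.two_le
  nlinarith

theorem order : ∃ δ c C : ℝ, 0 < δ ∧ 0 < c ∧ 0 < C ∧ ∃ K n0 : ℕ, ∀ n : ℕ, Odd n → n0 ≤ n →
    c * (preps n).card / (Real.log n) ^ 2 ≤ (WW n ⌊(n : ℝ) ^ δ⌋₊).card ∧
    ((WW n ⌊(n : ℝ) ^ δ⌋₊).card : ℝ) ≤ C * (preps n).card / (Real.log n) ^ 2 ∧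
    (∀ X ∈ WW n ⌊(n : ℝ) ^ δ⌋₊, ArithmeticFunction.cardFactors (pf X).natAbs ≤ K ∧
      ArithmeticFunction.cardFactors (pf X - 2).natAbs ≤ K) ∧
    (∀ X : Fin 4 → ℤ, ∑ i, X i ^ 2 = n → (pf X).toNat.Prime → (pf X - 2).toNat.Prime → X ∈ WW n ⌊(n : ℝ) ^ δ⌋₊) := by
  obtain ⟨δ0, hδ0, n1, h1⟩ := asymp (1 / 2) (by norm_num)
  obtain ⟨c2, C2, hc2, hC2, hSS⟩ := SS_two_sided
  set δ : ℝ := min δ0 (1 / 2) with hδ
  have hδp : 0 < δ := lt_min hδ0 (by norm_num)
  have hδh : δ ≤ 1 / 2 := min_le_right _ _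
  obtain ⟨n2, hn2⟩ := large_rpow 4 (δ / 2) (by positivity)
  obtain ⟨K, hK⟩ := exists_nat_ge (2 / δ)
  refine ⟨δ, 1 / 2 * (c2 / δ ^ 2), 3 / 2 * (4 * C2 / δ ^ 2), hδp, by positivity, by positivity, K, n1 + n2 + 10, ?_⟩
  intro n hno hnbig
  have hn : 1 ≤ n := hno.pos
  have hn10 : (10 : ℝ) ≤ n := by exact_mod_cast (show 10 ≤ n by omega)
  have hn0 : (0 : ℝ) < n := by linarith
  have hnr : (1 : ℝ) ≤ n := by linarith
  set y : ℝ := (n : ℝ) ^ δ with hy
  have hy4 : 4 ≤ (n : ℝ) ^ (δ / 2) := hn2 n (by omega)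
  have hy0 : 0 < y := Real.rpow_pos_of_pos hn0 _
  have hyy : y = (n : ℝ) ^ (δ / 2) * (n : ℝ) ^ (δ / 2) := by
    rw [hy, ← Real.rpow_add hn0]; congr 1; ring
  have hy16 : 16 ≤ y := by rw [hyy]; nlinarith
  set z : ℕ := ⌊y⌋₊ with hz
  have hzy : (z : ℝ) ≤ y := Nat.floor_le hy0.le
  have hz2 : 2 ≤ z := Nat.le_floor (by push_cast; linarith)
  have hzr : (2 : ℝ) ≤ z := by exact_mod_cast hz2
  have hzlow : (n : ℝ) ^ (δ / 2) ≤ z := by
    have := Nat.lt_floor_add_one y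
    rw [← hz] at this
    have h3 : (n : ℝ) ^ (δ / 2) + 1 ≤ y := by rw [hyy]; nlinarith
    linarith
  have hlogn : 0 < Real.log n := Real.log_pos (by linarith)
  have hlogz1 : Real.log z ≤ δ * Real.log n := by
    rw [← Real.log_rpow hn0]
    exact Real.log_le_log (by linarith) hzy
  have hlogz2 : δ / 2 * Real.log n ≤ Real.log z := by
    rw [← Real.log_rpow hn0]
    exact Real.log_le_log (by positivity) hzlow
  have hlogz0 : 0 < Real.log z := lt_of_lt_of_le (by positivity) hlogz2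
  have hzδ : (z : ℝ) ≤ (n : ℝ) ^ δ0 := hzy.trans (Real.rpow_le_rpow_of_exponent_le hnr (min_le_left _ _))
  have hW := abs_le.1 (h1 n hno (by omega) z hzδ)
  obtain ⟨hS1, hS2⟩ := hSS n z hz2
  have hP0 : (0 : ℝ) ≤ (preps n).card := by positivity
  refine ⟨?_, ?_, ?_, ?_⟩
  · have h3 : c2 / δ ^ 2 / (Real.log n) ^ 2 ≤ SS n z := by
      refine le_trans ?_ hS1
      rw [div_div]
      apply div_le_div_of_nonneg_left hc2.le (by positivity)
      rw [← mul_pow]
      exact pow_le_pow_left₀ hlogz0.le hlogz1 2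
    calc 1 / 2 * (c2 / δ ^ 2) * (preps n).card / (Real.log n) ^ 2 =
          1 / 2 * ((preps n).card * (c2 / δ ^ 2 / (Real.log n) ^ 2)) := by ring
      _ ≤ 1 / 2 * ((preps n).card * SS n z) := by gcongr
      _ ≤ _ := by linarith [hW.1]
  · have h3 : SS n z ≤ 4 * C2 / δ ^ 2 / (Real.log n) ^ 2 := by
      refine hS2.trans ?_
      have h4 : C2 / (Real.log z) ^ 2 ≤ C2 / (δ / 2 * Real.log n) ^ 2 := by
        apply div_le_div_of_nonneg_left hC2.le (by positivity)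
        exact pow_le_pow_left₀ (by positivity) hlogz2 2
      refine h4.trans (le_of_eq ?_)
      field_simp
      ring
    calc ((WW n z).card : ℝ) ≤ 3 / 2 * ((preps n).card * SS n z) := by linarith [hW.2]
      _ ≤ 3 / 2 * ((preps n).card * (4 * C2 / δ ^ 2 / (Real.log n) ^ 2)) := by gcongr
      _ = _ := by ring
  · intro X hX
    rw [mem_WW'] at hX
    obtain ⟨⟨hX1, hX2⟩, hX3⟩ := hX
    have hlow := pf_lower n X hX1
    have hup := pf_upper n X hX1
    have hn10z : (10 : ℤ) ≤ n := by exact_mod_cast (show 10 ≤ n by omega)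
    have key : ∀ m : ℕ, m ≠ 0 → m ≤ 7 * n → (∀ q : ℕ, q.Prime → q ∣ m → (q : ℤ) ∣ ff X) →
        ArithmeticFunction.cardFactors m ≤ K := by
      intro m hm0 hm7 hq
      have hmr : (m : ℝ) ≤ 7 * n := by exact_mod_cast hm7
      have h4 := omega_bound y hy0.le m hm0 (fun q hq' hqm => by
        by_contra hlt
        push Not at hlt
        exact hX3 q hq' (Nat.le_floor hlt.le) (hq q hq' hqm))
      by_contra hlt
      push Not at hlt
      have h5 : y ^ (K + 1) ≤ y ^ (ArithmeticFunction.cardFactors m) :=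
        pow_le_pow_right₀ (by linarith) (by omega)
      have h6 : (n : ℝ) ^ (2 : ℝ) ≤ y ^ K := by
        rw [hy, ← Real.rpow_natCast, ← Real.rpow_mul hn0.le]
        apply Real.rpow_le_rpow_of_exponent_le hnr
        rw [div_le_iff₀ hδp] at hK
        linarith
      have h7 : (n : ℝ) ^ (2 : ℝ) * 16 ≤ y ^ (K + 1) := by
        rw [pow_succ]
        gcongr
      have h8 : (n : ℝ) ^ (2 : ℝ) = (n : ℝ) * n := by
        rw [show (2 : ℝ) = ((2 : ℕ) : ℝ) by norm_num, Real.rpow_natCast]; ring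
      rw [h8] at h7
      nlinarith
    constructor
    · apply key
      · omega
      · omega
      · intro q hq hqd
        unfold ff
        exact (Int.natCast_dvd.2 hqd).mul_right _
    · apply key
      · omega
      · omega
      · intro q hq hqd
        unfold ff
        exact (Int.natCast_dvd.2 hqd).mul_left _
  · intro X hX hp1 hp2
    rw [mem_WW']
    refine ⟨⟨hX, gc_one_of_prime X hp1⟩, ?_⟩
    intro l hl hlz hdvd
    have hlow := pf_lower n X hX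
    have hn10z : (10 : ℤ) ≤ n := by exact_mod_cast (show 10 ≤ n by omega)
    -- `l ≤ n - 3`
    have hlsmall : (l : ℝ) < n - 2 := by
      have h3 : (l : ℝ) ≤ y := le_trans (by exact_mod_cast hlz) hzy
      have h4 : y ≤ Real.sqrt n := by
        rw [Real.sqrt_eq_rpow]
        exact Real.rpow_le_rpow_of_exponent_le hnr hδh
      have h5 : Real.sqrt n * Real.sqrt n = n := Real.mul_self_sqrt hn0.le
      have h6 : 3 < Real.sqrt n := by
        rw [Real.lt_sqrt (by norm_num)]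
        linarith
      nlinarith
    have hlz' : (l : ℤ) < n - 2 := by exact_mod_cast hlsmall
    unfold ff at hdvd
    rcases (Nat.prime_iff_prime_int.1 hl).dvd_or_dvd hdvd with h3 | h3
    · have h4 : ((pf X).toNat : ℤ) = pf X := Int.toNat_of_nonneg (by linarith)
      rw [← h4] at h3
      have h5 : l ∣ (pf X).toNat := by exact_mod_cast h3
      have h6 := (Nat.prime_dvd_prime_iff_eq hl hp1).1 h5
      omega
    · have h4 : ((pf X - 2).toNat : ℤ) = pf X - 2 := Int.toNat_of_nonneg (by linarith)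
      rw [← h4] at h3
      have h5 : l ∣ (pf X - 2).toNat := by exact_mod_cast h3
      have h6 := (Nat.prime_dvd_prime_iff_eq hl hp2).1 h5
      omega

/-! ### coordinates -/

/-- the four coordinates -/
def co (X : Fin 4 → ℤ) : ℤ × ℤ × ℤ × ℤ := (X 0, X 1, X 2, X 3)

lemma co_inj : Function.Injective co := by
  intro X Y h
  unfold co at h
  simp only [Prod.mk.injEq] at h
  obtain ⟨h0, h1, h2, h3⟩ := h
  funext i
  fin_cases i
  · exact h0
  · exact h1
  · exact h2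
  · exact h3

lemma co_surj (v : ℤ × ℤ × ℤ × ℤ) : ∃ X, co X = v := ⟨![v.1, v.2.1, v.2.2.1, v.2.2.2], rfl⟩

lemma gc_iff (X : Fin 4 → ℤ) : gc X = 1 ↔ Int.gcd (Int.gcd (X 0) (X 1)) (Int.gcd (X 2) (X 3)) = 1 := by
  have key : ∀ f : ℕ, f ∣ gc X ↔ f ∣ Int.gcd (Int.gcd (X 0) (X 1)) (Int.gcd (X 2) (X 3)) := by
    intro f
    rw [dvd_gc, ← Int.natCast_dvd_natCast, Int.dvd_coe_gcd_iff, Int.dvd_coe_gcd_iff, Int.dvd_coe_gcd_iff]
    constructor
    · intro h
      exact ⟨⟨h 0, h 1⟩, ⟨h 2, h 3⟩⟩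
    · rintro ⟨⟨h0, h1⟩, ⟨h2, h3⟩⟩ i
      fin_cases i
      · exact h0
      · exact h1
      · exact h2
      · exact h3
  have : gc X = Int.gcd (Int.gcd (X 0) (X 1)) (Int.gcd (X 2) (X 3)) :=
    Nat.dvd_antisymm ((key _).1 dvd_rfl) ((key _).2 dvd_rfl)
  rw [this]

lemma ncard_of (S : Set (ℤ × ℤ × ℤ × ℤ)) (T : Finset (Fin 4 → ℤ)) (h : ∀ X, co X ∈ S ↔ X ∈ T) : S.ncard = T.card := by
  have h1 : S = co '' (T : Set (Fin 4 → ℤ)) := by
    ext v
    obtain ⟨X, rfl⟩ := co_surj v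
    rw [h X, Set.mem_image]
    constructor
    · intro hX; exact ⟨X, hX, rfl⟩
    · rintro ⟨Y, hY, hYX⟩
      rw [← co_inj hYX]; exact hY
  rw [h1, Set.ncard_image_of_injective _ co_inj, Set.ncard_coe_finset]

end Pool.Agent.HP42.FS
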