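import Pool.Agent.W65.FS.Sieve
import Pool.Agent.H341R2.WeilSharp

/-!
# The number of solutions modulo `l` of two diagonal quadratic equations in four unknowns
-/

set_option autoImplicit false
open Finset Polynomial

namespace Pool.Agent.HP42.FS

section poly

variable {F : Type} [Field F]

lemma coeffs_eq (a4 a3 a2 a1 a0 b4 b3 b2 b1 b0 : F)
    (h : C a4 * X ^ 4 + C a3 * X ^ 3 + C a2 * X ^ 2 + C a1 * X + C a0 =
      C b4 * X ^ 4 + C b3 * X ^ 3 + C b2 * X ^ 2 + C b1 * X + C b0) :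
    a4 = b4 ∧ a3 = b3 ∧ a2 = b2 ∧ a1 = b1 ∧ a0 = b0 := by
  have c4 := congrArg (fun f => coeff f 4) h
  have c3 := congrArg (fun f => coeff f 3) h
  have c2 := congrArg (fun f => coeff f 2) h
  have c1 := congrArg (fun f => coeff f 1) h
  have c0 := congrArg (fun f => coeff f 0) h
  simp [coeff_X, coeff_C] at c4 c3 c2 c1 c0
  exact ⟨c4, c3, c2, c1, c0⟩

lemma deg_one_form (h : F[X]) (hd : h.natDegree = 1) : ∃ p q : F, h = C p * X + C q := by
  refine ⟨h.coeff 1, h.coeff 0, ?_⟩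
  exact eq_X_add_C_of_natDegree_le_one hd.le

lemma natDegree_sq_eq (f h : F[X]) (e : F) (hf : f ≠ 0) (heq : f = C e * h ^ 2) :
    f.natDegree = 2 * h.natDegree := by
  have he : e ≠ 0 := by
    rintro rfl
    rw [C_0, zero_mul] at heq
    exact hf heq
  rw [heq, natDegree_C_mul he, natDegree_pow]

lemma quad_deg (a c : F) (ha : a ≠ 0) : (C a * X ^ 2 + C c : F[X]).natDegree = 2 := by
  compute_degree!

/-- `a x² + c` is a constant times a square only if `c = 0` -/
lemma quad_sq (h2 : (2 : F) ≠ 0) (a c e : F) (ha : a ≠ 0) (h : F[X])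
    (heq : C a * X ^ 2 + C c = C e * h ^ 2) : c = 0 := by
  have hdeg := quad_deg a c ha
  have hne : (C a * X ^ 2 + C c : F[X]) ≠ 0 := by
    intro h0
    rw [h0, natDegree_zero] at hdeg
    omega
  have h1 := natDegree_sq_eq _ h e hne heq
  rw [hdeg] at h1
  obtain ⟨p, q, rfl⟩ := deg_one_form h (by omega)
  obtain ⟨-, -, c2, c1, c0⟩ := coeffs_eq 0 0 a 0 c 0 0 (e * p ^ 2) (2 * e * p * q) (e * q ^ 2) (by
    simp only [C_mul, C_pow, C_0, map_ofNat]
    linear_combination heq)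
  have he : e ≠ 0 := by
    rintro rfl
    apply ha
    rw [c2, zero_mul]
  have hp : p ≠ 0 := by
    rintro rfl
    apply ha
    rw [c2]; ring
  have hq : q = 0 := by
    have h3 : (2 * e * p) * q = 0 := c1.symm
    rcases mul_eq_zero.1 h3 with h4 | h4
    · exact absurd h4 (mul_ne_zero (mul_ne_zero h2 he) hp)
    · exact h4
  rw [c0, hq]
  ring

/-- `(x² + c) (-2 x² + d)` is a constant times a square only if `d + 2 c = 0` -/
lemma quart_sq (h2 : (2 : F) ≠ 0) (c d e : F) (h : F[X])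
    (heq : (X ^ 2 + C c) * (C (-2) * X ^ 2 + C d) = C e * h ^ 2) : d + 2 * c = 0 := by
  have hd1 : (X ^ 2 + C c : F[X]).natDegree = 2 := by compute_degree!
  have hd2 := quad_deg (-2 : F) d (neg_ne_zero.2 h2)
  have hn1 : (X ^ 2 + C c : F[X]) ≠ 0 := by
    intro h0
    rw [h0, natDegree_zero] at hd1
    omega
  have hn2 : (C (-2 : F) * X ^ 2 + C d : F[X]) ≠ 0 := by
    intro h0
    rw [h0, natDegree_zero] at hd2
    omega
  have hdeg : ((X ^ 2 + C c) * (C (-2) * X ^ 2 + C d) : F[X]).natDegree = 4 := by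
    rw [natDegree_mul hn1 hn2, hd1, hd2]
  have h1 := natDegree_sq_eq _ h e (mul_ne_zero hn1 hn2) heq
  rw [hdeg] at h1
  have hh : h = C (h.coeff 2) * X ^ 2 + C (h.coeff 1) * X + C (h.coeff 0) := by
    conv_lhs => rw [h.as_sum_range_C_mul_X_pow]
    have : h.natDegree + 1 = 3 := by omega
    rw [this]
    simp only [Finset.sum_range_succ, Finset.sum_range_zero]
    ring
  obtain ⟨p, q, r, hpqr⟩ : ∃ p q r : F, h = C p * X ^ 2 + C q * X + C r := ⟨_, _, _, hh⟩
  rw [hpqr] at heq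
  obtain ⟨c4, c3, c2, -, c0⟩ := coeffs_eq (-2) 0 (d - 2 * c) 0 (c * d) (e * p ^ 2) (2 * e * p * q)
    (e * (2 * p * r + q ^ 2)) (2 * e * q * r) (e * r ^ 2) (by
    simp only [C_mul, C_pow, C_0, C_add, C_sub, C_neg, map_ofNat] at heq ⊢
    linear_combination heq)
  have hep : e * p ≠ 0 := by
    intro h0
    have : e * p ^ 2 = (e * p) * p := by ring
    rw [this, h0, zero_mul] at c4
    exact h2 (neg_eq_zero.1 c4)
  have hq : q = 0 := by
    have h3 : (2 * (e * p)) * q = 0 := by linear_combination -c3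
    rcases mul_eq_zero.1 h3 with h4 | h4
    · exact absurd h4 (mul_ne_zero h2 hep)
    · exact h4
  rw [hq] at c2
  have h3 : (d + 2 * c) ^ 2 = 0 := by
    linear_combination (d - 2 * c + 2 * e * p * r) * c2 - 4 * e * r ^ 2 * c4 + 8 * c0
  exact (pow_eq_zero_iff (two_ne_zero)).1 h3

end poly


section chars

variable {F : Type} [Field F] [Fintype F] [DecidableEq F]

lemma abs_chi_le (a : F) : |(quadraticChar F a : ℝ)| ≤ 1 := by
  rcases quadraticChar_isQuadratic F a with h | h | h <;> rw [h] <;> norm_num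

lemma triv_bound (f : F → F) : |∑ x : F, (quadraticChar F (f x) : ℝ)| ≤ Fintype.card F := by
  refine (Finset.abs_sum_le_sum_abs _ _).trans ?_
  calc ∑ x : F, |(quadraticChar F (f x) : ℝ)| ≤ ∑ _x : F, (1 : ℝ) := Finset.sum_le_sum fun x _ => abs_chi_le _
    _ = _ := by simp

omit [Fintype F] [DecidableEq F] in
lemma two_ne (hF : ringChar F ≠ 2) : (2 : F) ≠ 0 := Ring.two_ne_zero hF

lemma quad_bound (hF : ringChar F ≠ 2) (a c : F) (ha : a ≠ 0) (hc : c ≠ 0) :
    |∑ x : F, (quadraticChar F (a * x ^ 2 + c) : ℝ)| ≤ 3 * Real.sqrt (Fintype.card F) := by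
  have hd := quad_deg a c ha
  have h := Pool.Agent.H341R2.Sharp.weil_sharp hF (C a * X ^ 2 + C c) (by rw [hd]; norm_num)
    (fun e h heq => hc (quad_sq (two_ne hF) a c e ha h heq))
  rw [hd] at h
  simp only [eval_add, eval_mul, eval_C, eval_pow, eval_X] at h
  refine h.trans ?_
  have := Real.sqrt_nonneg (Fintype.card F)
  push_cast
  linarith

lemma quart_bound (hF : ringChar F ≠ 2) (c d : F) (hcd : d + 2 * c ≠ 0) :
    |∑ x : F, (quadraticChar F ((x ^ 2 + c) * (-2 * x ^ 2 + d)) : ℝ)| ≤ 3 * Real.sqrt (Fintype.card F) := by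
  have h2 := two_ne hF
  have hd1 : (X ^ 2 + C c : F[X]).natDegree = 2 := by compute_degree!
  have hd2 := quad_deg (-2 : F) d (neg_ne_zero.2 h2)
  have hn1 : (X ^ 2 + C c : F[X]) ≠ 0 := by
    intro h0
    rw [h0, natDegree_zero] at hd1
    omega
  have hn2 : (C (-2 : F) * X ^ 2 + C d : F[X]) ≠ 0 := by
    intro h0
    rw [h0, natDegree_zero] at hd2
    omega
  have hdeg : ((X ^ 2 + C c) * (C (-2) * X ^ 2 + C d) : F[X]).natDegree = 4 := by
    rw [natDegree_mul hn1 hn2, hd1, hd2]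
  have h := Pool.Agent.H341R2.Sharp.weil_sharp hF ((X ^ 2 + C c) * (C (-2) * X ^ 2 + C d)) (by rw [hdeg]; norm_num)
    (fun e h heq => hcd (quart_sq h2 c d e h heq))
  rw [hdeg] at h
  simp only [eval_add, eval_mul, eval_C, eval_pow, eval_X] at h
  refine h.trans ?_
  have := Real.sqrt_nonneg (Fintype.card F)
  push_cast
  linarith

lemma sqrts_card (hF : ringChar F ≠ 2) (t : F) :
    (((univ : Finset F).filter (fun x => x ^ 2 = t)).card : ℝ) = quadraticChar F t + 1 := by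
  have h := quadraticChar_card_sqrts hF t
  have h1 : ({x : F | x ^ 2 = t} : Set F).toFinset = univ.filter (fun x => x ^ 2 = t) := by
    ext x; simp
  rw [h1] at h
  exact_mod_cast h

lemma sqrts_card_le (hF : ringChar F ≠ 2) (t : F) : ((univ : Finset F).filter (fun x => x ^ 2 = t)).card ≤ 2 := by
  have h := sqrts_card hF t
  have h1 := (abs_le.1 (abs_chi_le t)).2
  have h2 : (((univ : Finset F).filter (fun x => x ^ 2 = t)).card : ℝ) ≤ 2 := by linarith
  exact_mod_cast h2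

lemma two_param (E : Finset F) (hE : E.card ≤ 2) (g : F → F → F)
    (h : ∀ w, w ∉ E → |∑ z : F, (quadraticChar F (g z w) : ℝ)| ≤ 3 * Real.sqrt (Fintype.card F)) :
    |∑ w : F, ∑ z : F, (quadraticChar F (g z w) : ℝ)| ≤
      3 * (Fintype.card F * Real.sqrt (Fintype.card F)) + 2 * Fintype.card F := by
  classical
  have hs := Real.sqrt_nonneg (Fintype.card F)
  refine (Finset.abs_sum_le_sum_abs _ _).trans ?_
  have h1 : ∀ w : F, |∑ z : F, (quadraticChar F (g z w) : ℝ)| ≤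
      3 * Real.sqrt (Fintype.card F) + (if w ∈ E then (Fintype.card F : ℝ) else 0) := by
    intro w
    by_cases hw : w ∈ E
    · rw [if_pos hw]
      have := triv_bound (fun z => g z w)
      linarith
    · rw [if_neg hw]
      have := h w hw
      linarith
  refine (Finset.sum_le_sum fun w _ => h1 w).trans ?_
  rw [Finset.sum_add_distrib, Finset.sum_const, Finset.sum_ite_mem, Finset.univ_inter, Finset.sum_const, nsmul_eq_mul,
    nsmul_eq_mul, Finset.card_univ]
  have h2 : (E.card : ℝ) ≤ 2 := by exact_mod_cast hE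
  have h3 : (0 : ℝ) ≤ Fintype.card F := by positivity
  nlinarith [mul_le_mul_of_nonneg_right h2 h3]

/-- solutions of `|u|² = n`, `u₀² + 3 u₁² + 5 u₂² + 7 u₃² = m` -/
def Sol2 (n m : F) : Finset (Fin 4 → F) :=
  univ.filter (fun u => ∑ i, u i ^ 2 = n ∧ u 0 ^ 2 + 3 * u 1 ^ 2 + 5 * u 2 ^ 2 + 7 * u 3 ^ 2 = m)

lemma fib_card (h2 : (2 : F) ≠ 0) (n m z w : F) :
    ((Sol2 n m).filter (fun u => (u 2, u 3) = (z, w))).card =
      ((univ : Finset F).filter (fun x => x ^ 2 = z ^ 2 + (2 * w ^ 2 + (3 * n - m) / 2))).card *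
      ((univ : Finset F).filter (fun y => y ^ 2 = -2 * z ^ 2 + ((m - n) / 2 - 3 * w ^ 2))).card := by
  classical
  rw [← Finset.card_product]
  apply Finset.card_nbij' (i := fun u => (u 0, u 1)) (j := fun p => ![p.1, p.2, z, w])
  · intro u hu
    simp only [Sol2, Finset.mem_coe, Finset.mem_filter, Finset.mem_univ, true_and, Prod.mk.injEq] at hu
    obtain ⟨⟨h1, h3⟩, h4, h5⟩ := hu
    rw [Fin.sum_univ_four, h4, h5] at h1
    rw [h4, h5] at h3
    simp only [Finset.coe_product, Set.mem_prod, Finset.mem_coe, Finset.mem_filter, Finset.mem_univ, true_and]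
    constructor
    · field_simp
      linear_combination 3 * h1 - h3
    · field_simp
      linear_combination h3 - h1
  · intro p hp
    simp only [Finset.coe_product, Set.mem_prod, Finset.mem_coe, Finset.mem_filter, Finset.mem_univ, true_and] at hp
    obtain ⟨h1, h3⟩ := hp
    field_simp at h1 h3
    simp only [Sol2, Finset.mem_coe, Finset.mem_filter, Finset.mem_univ, true_and, Fin.sum_univ_four]
    simp only [Matrix.cons_val_zero, Matrix.cons_val_one, Matrix.cons_val]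
    refine ⟨⟨?_, ?_⟩, trivial⟩
    · apply mul_left_cancel₀ h2
      linear_combination h1 + h3
    · apply mul_left_cancel₀ h2
      linear_combination h1 + 3 * h3
  · intro u hu
    simp only [Sol2, Finset.mem_coe, Finset.mem_filter, Finset.mem_univ, true_and, Prod.mk.injEq] at hu
    obtain ⟨-, h4, h5⟩ := hu
    funext i
    fin_cases i
    · rfl
    · rfl
    · exact h4.symm
    · exact h5.symm
  · intro p _
    rfl

lemma sol2_card (hF : ringChar F ≠ 2) (n m : F) : ((Sol2 n m).card : ℝ) =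
    (Fintype.card F : ℝ) ^ 2 +
      ∑ w : F, ∑ z : F, (quadraticChar F (1 * z ^ 2 + (2 * w ^ 2 + (3 * n - m) / 2)) : ℝ) +
      ∑ w : F, ∑ z : F, (quadraticChar F (-2 * z ^ 2 + ((m - n) / 2 - 3 * w ^ 2)) : ℝ) +
      ∑ w : F, ∑ z : F, (quadraticChar F ((z ^ 2 + (2 * w ^ 2 + (3 * n - m) / 2)) *
        (-2 * z ^ 2 + ((m - n) / 2 - 3 * w ^ 2))) : ℝ) := by
  classical
  have h2 := two_ne hF
  have h1 : (Sol2 n m).card = ∑ r : F × F, ((Sol2 n m).filter (fun u => (u 2, u 3) = (r.2, r.1))).card := by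
    have h := Finset.card_eq_sum_card_fiberwise (s := Sol2 n m) (t := (univ : Finset (F × F))) (f := fun u => (u 3, u 2))
      (fun _ _ => Finset.mem_coe.2 (Finset.mem_univ _))
    rw [h]
    apply Finset.sum_congr rfl
    intro r _
    congr 1
    apply Finset.filter_congr
    intro u _
    constructor
    · intro h; rw [← h]
    · intro h
      simp only [Prod.mk.injEq] at h
      exact Prod.ext h.2 h.1
  rw [h1]
  push_cast
  rw [Fintype.sum_prod_type]
  have hq : (Fintype.card F : ℝ) ^ 2 = ∑ _w : F, ∑ _z : F, (1 : ℝ) := by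
    simp [sq]
  rw [hq, ← Finset.sum_add_distrib, ← Finset.sum_add_distrib, ← Finset.sum_add_distrib]
  apply Finset.sum_congr rfl
  intro w _
  rw [← Finset.sum_add_distrib, ← Finset.sum_add_distrib, ← Finset.sum_add_distrib]
  apply Finset.sum_congr rfl
  intro z _
  simp only
  rw [fib_card h2, Nat.cast_mul, sqrts_card hF, sqrts_card hF, map_mul, one_mul]
  push_cast
  ring

lemma sol2_bound (hF : ringChar F ≠ 2) (h3 : (3 : F) ≠ 0) (n m : F) :
    |((Sol2 n m).card : ℝ) - (Fintype.card F : ℝ) ^ 2| ≤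
      9 * (Fintype.card F * Real.sqrt (Fintype.card F)) + 6 * Fintype.card F := by
  classical
  have h2 := two_ne hF
  have h4 : (4 : F) ≠ 0 := by
    have : (4 : F) = 2 * 2 := by norm_num
    rw [this]; exact mul_ne_zero h2 h2
  rw [sol2_card hF]
  have b1 := two_param (univ.filter (fun w : F => w ^ 2 = -((3 * n - m) / 4))) (sqrts_card_le hF _)
    (fun z w => 1 * z ^ 2 + (2 * w ^ 2 + (3 * n - m) / 2)) (by
      intro w hw
      apply quad_bound hF 1 _ one_ne_zero
      intro h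
      apply hw
      rw [Finset.mem_filter]
      refine ⟨Finset.mem_univ _, ?_⟩
      field_simp at h ⊢
      linear_combination h)
  have b2 := two_param (univ.filter (fun w : F => w ^ 2 = (m - n) / (2 * 3))) (sqrts_card_le hF _)
    (fun z w => -2 * z ^ 2 + ((m - n) / 2 - 3 * w ^ 2)) (by
      intro w hw
      apply quad_bound hF (-2) _ (neg_ne_zero.2 h2)
      intro h
      apply hw
      rw [Finset.mem_filter]
      refine ⟨Finset.mem_univ _, ?_⟩
      field_simp at h ⊢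
      linear_combination -h)
  have b3 := two_param (univ.filter (fun w : F => w ^ 2 = (m - 5 * n) / 2)) (sqrts_card_le hF _)
    (fun z w => (z ^ 2 + (2 * w ^ 2 + (3 * n - m) / 2)) * (-2 * z ^ 2 + ((m - n) / 2 - 3 * w ^ 2))) (by
      intro w hw
      apply quart_bound hF
      intro h
      apply hw
      rw [Finset.mem_filter]
      refine ⟨Finset.mem_univ _, ?_⟩
      field_simp at h ⊢
      linear_combination h)
  rw [abs_le] at b1 b2 b3 ⊢
  constructor <;> linarith [b1.1, b1.2, b2.1, b2.2, b3.1, b3.2]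

end chars

section transfer

open Pool.Agent.W65.FS

lemma box_card (l : ℕ) [NeZero l] (Q : (Fin 4 → ZMod l) → Prop) [DecidablePred Q] :
    ((Fintype.piFinset fun _ : Fin 4 => Finset.Ico (0 : ℤ) l).filter
      (fun c => Q (fun i => ((c i : ℤ) : ZMod l)))).card = (univ.filter Q).card := by
  classical
  apply Finset.card_nbij' (i := fun c i => ((c i : ℤ) : ZMod l)) (j := fun u i => ((u i).val : ℤ))
  · intro c hc
    simp only [Finset.mem_coe, Finset.mem_filter, Finset.mem_univ, true_and] at hc ⊢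
    exact hc.2
  · intro u hu
    simp only [Finset.mem_coe, Finset.mem_filter, Finset.mem_univ, true_and, Fintype.mem_piFinset, Finset.mem_Ico] at hu ⊢
    refine ⟨fun i => ⟨by positivity, ?_⟩, ?_⟩
    · have := ZMod.val_lt (u i)
      exact_mod_cast this
    · have : (fun i => ((((u i).val : ℕ) : ℤ) : ZMod l)) = u := by
        funext i
        push_cast
        exact ZMod.natCast_zmod_val (u i)
      rw [this]
      exact hu
  · intro c hc
    simp only [Finset.mem_coe, Finset.mem_filter, Fintype.mem_piFinset, Finset.mem_Ico] at hc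
    funext i
    have h1 := hc.1 i
    simp only
    rw [ZMod.val_intCast, Int.emod_eq_of_lt h1.1 h1.2]
  · intro u hu
    funext i
    simp only
    push_cast
    exact ZMod.natCast_zmod_val (u i)

lemma ex_iff (l : ℕ) (c : Fin 4 → ℤ) : (∃ i, ¬ (l : ℤ) ∣ c i) ↔ (fun i => ((c i : ℤ) : ZMod l)) ≠ 0 := by
  constructor
  · rintro ⟨i, hi⟩ h
    apply hi
    have := congrFun h i
    simp only [Pi.zero_apply] at this
    exact (ZMod.intCast_zmod_eq_zero_iff_dvd _ _).1 this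
  · intro h
    by_contra h1
    push Not at h1
    apply h
    funext i
    exact (ZMod.intCast_zmod_eq_zero_iff_dvd _ _).2 (h1 i)

lemma Gl_card_eq (l : ℕ) [NeZero l] (n : ℕ) : (Gl n l).card =
    ((univ : Finset (Fin 4 → ZMod l)).filter (fun u => ∑ i, u i ^ 2 = (n : ZMod l) ∧ u ≠ 0)).card := by
  classical
  rw [← box_card l (fun u => ∑ i, u i ^ 2 = (n : ZMod l) ∧ u ≠ 0)]
  congr 1
  unfold Gl
  apply Finset.filter_congr
  intro c _
  rw [ex_iff, ← ZMod.intCast_zmod_eq_zero_iff_dvd]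
  push_cast
  rw [sub_eq_zero]

lemma Gl_upper (l : ℕ) (hlp : l.Prime) (hl2 : l ≠ 2) (n : ℕ) : ((Gl n l).card : ℝ) ≤ (l : ℝ) ^ 3 + (l : ℝ) ^ 2 := by
  classical
  have : NeZero l := ⟨hlp.ne_zero⟩
  have : Fact l.Prime := ⟨hlp⟩
  have hl0 : (0 : ℝ) < l := by exact_mod_cast hlp.pos
  rw [Gl_card_eq]
  set S := univ.filter (fun u : Fin 4 → ZMod l => ∑ i, u i ^ 2 = (n : ZMod l)) with hS
  have h0 : ((univ : Finset (Fin 4 → ZMod l)).filter (fun u => ∑ i, u i ^ 2 = (n : ZMod l) ∧ u ≠ 0)).card ≤ S.card := by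
    apply Finset.card_le_card
    intro u hu
    rw [Finset.mem_filter] at hu
    rw [hS, Finset.mem_filter]
    exact ⟨hu.1, hu.2.1⟩
  have h1 := count_quad l (hlp.odd_of_ne_two hl2) (n : ZMod l)
  rw [← hS] at h1
  have h2 : (S.card : ℝ) * l = (l : ℝ) ^ 4 + (l : ℝ) ^ 2 * ((if (n : ZMod l) = 0 then (l : ℝ) else 0) - 1) := by
    have h3 : (((S.card : ℝ) * l : ℝ) : ℂ) = (((l : ℝ) ^ 4 + (l : ℝ) ^ 2 * ((if (n : ZMod l) = 0 then (l : ℝ) else 0) - 1) : ℝ) : ℂ) := by
      push_cast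
      rw [h1]
      split_ifs <;> push_cast <;> ring
    exact_mod_cast h3
  have h3 : (if (n : ZMod l) = 0 then (l : ℝ) else 0) ≤ l := by split_ifs <;> linarith
  have h4 : (S.card : ℝ) * l ≤ ((l : ℝ) ^ 3 + (l : ℝ) ^ 2) * l := by
    rw [h2]
    nlinarith [mul_le_mul_of_nonneg_left h3 (show (0 : ℝ) ≤ (l : ℝ) ^ 2 by positivity), show (0 : ℝ) < (l : ℝ) ^ 2 by positivity]
  have h5 : (S.card : ℝ) ≤ (l : ℝ) ^ 3 + (l : ℝ) ^ 2 := le_of_mul_le_mul_right h4 hl0
  have h6 : (((univ : Finset (Fin 4 → ZMod l)).filter (fun u => ∑ i, u i ^ 2 = (n : ZMod l) ∧ u ≠ 0)).card : ℝ) ≤ S.card := by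
    exact_mod_cast h0
  linarith

lemma Bl_card_eq (l : ℕ) [Fact l.Prime] (hl2 : l ≠ 2) (n : ℕ) : (Bl ff n l).card =
    ((Sol2 (n : ZMod l) 0).erase 0).card + (Sol2 (n : ZMod l) 2).card := by
  classical
  have hl : l.Prime := Fact.out
  have h2 : (2 : ZMod l) ≠ 0 := by
    intro h
    have h3 : ((2 : ℕ) : ZMod l) = 0 := by exact_mod_cast h
    rw [ZMod.natCast_eq_zero_iff] at h3
    exact hl2 ((Nat.prime_dvd_prime_iff_eq hl Nat.prime_two).1 h3)
  have hdisj : Disjoint ((Sol2 (n : ZMod l) 0).erase 0) (Sol2 (n : ZMod l) 2) := by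
    rw [Finset.disjoint_left]
    intro u hu hu'
    rw [Finset.mem_erase] at hu
    unfold Sol2 at hu hu'
    rw [Finset.mem_filter] at hu hu'
    have := hu.2.2.2
    rw [hu'.2.2] at this
    exact h2 this
  rw [← Finset.card_union_of_disjoint hdisj]
  have h3 : ((Sol2 (n : ZMod l) 0).erase 0) ∪ (Sol2 (n : ZMod l) 2) = univ.filter (fun u : Fin 4 → ZMod l =>
      (∑ i, u i ^ 2 = (n : ZMod l) ∧ u ≠ 0) ∧ (u 0 ^ 2 + 3 * u 1 ^ 2 + 5 * u 2 ^ 2 + 7 * u 3 ^ 2) *
        (u 0 ^ 2 + 3 * u 1 ^ 2 + 5 * u 2 ^ 2 + 7 * u 3 ^ 2 - 2) = 0) := by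
    ext u
    simp only [Sol2, Finset.mem_union, Finset.mem_erase, Finset.mem_filter, Finset.mem_univ, true_and]
    constructor
    · rintro (⟨h4, h5, h6⟩ | ⟨h5, h6⟩)
      · exact ⟨⟨h5, h4⟩, by rw [h6, zero_mul]⟩
      · refine ⟨⟨h5, ?_⟩, by rw [h6, sub_self, mul_zero]⟩
        rintro rfl
        apply h2
        rw [← h6]
        simp
    · rintro ⟨⟨h4, h5⟩, h6⟩
      rcases mul_eq_zero.1 h6 with h7 | h7
      · left; exact ⟨h5, h4, h7⟩
      · right; exact ⟨h4, sub_eq_zero.1 h7⟩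
  rw [h3, ← box_card l (fun u => (∑ i, u i ^ 2 = (n : ZMod l) ∧ u ≠ 0) ∧ (u 0 ^ 2 + 3 * u 1 ^ 2 + 5 * u 2 ^ 2 + 7 * u 3 ^ 2) *
        (u 0 ^ 2 + 3 * u 1 ^ 2 + 5 * u 2 ^ 2 + 7 * u 3 ^ 2 - 2) = 0)]
  congr 1
  unfold Bl Gl
  rw [Finset.filter_filter]
  apply Finset.filter_congr
  intro c _
  rw [ex_iff, ← ZMod.intCast_zmod_eq_zero_iff_dvd, ← ZMod.intCast_zmod_eq_zero_iff_dvd]
  unfold ff pf
  push_cast
  rw [sub_eq_zero]

/-- `|Bl| = 2 l² + O(l^(3/2))` -/
lemma Bl_bound (l : ℕ) (hl : l.Prime) (hl3 : 3 < l) (n : ℕ) :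
    |((Bl ff n l).card : ℝ) - 2 * (l : ℝ) ^ 2| ≤ 31 * (l * Real.sqrt l) := by
  have : Fact l.Prime := ⟨hl⟩
  have hl0 : (3 : ℝ) < l := by exact_mod_cast hl3
  have hF : ringChar (ZMod l) ≠ 2 := by
    rw [ZMod.ringChar_zmod_n]
    omega
  have h3 : (3 : ZMod l) ≠ 0 := by
    intro h
    have h4 : ((3 : ℕ) : ZMod l) = 0 := by exact_mod_cast h
    rw [ZMod.natCast_eq_zero_iff] at h4
    have := (Nat.prime_dvd_prime_iff_eq hl Nat.prime_three).1 h4
    omega
  rw [Bl_card_eq l (by omega) n]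
  have b0 := sol2_bound hF h3 (n : ZMod l) 0
  have b2 := sol2_bound hF h3 (n : ZMod l) 2
  rw [ZMod.card] at b0 b2
  have he1 : (((Sol2 (n : ZMod l) 0).erase 0).card : ℝ) ≤ (Sol2 (n : ZMod l) 0).card := by
    exact_mod_cast Finset.card_erase_le
  have he2 : ((Sol2 (n : ZMod l) 0).card : ℝ) - 1 ≤ ((Sol2 (n : ZMod l) 0).erase 0).card := by
    have := Finset.pred_card_le_card_erase (s := Sol2 (n : ZMod l) 0) (a := 0)
    have h5 : (Sol2 (n : ZMod l) 0).card ≤ ((Sol2 (n : ZMod l) 0).erase 0).card + 1 := by omega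
    have h6 : ((Sol2 (n : ZMod l) 0).card : ℝ) ≤ (((Sol2 (n : ZMod l) 0).erase 0).card + 1 : ℕ) := by exact_mod_cast h5
    push_cast at h6
    linarith
  have hs : 1 ≤ Real.sqrt l := by
    rw [Real.one_le_sqrt]
    linarith
  have hls : (l : ℝ) ≤ l * Real.sqrt l := by nlinarith
  rw [abs_le] at b0 b2 ⊢
  push_cast
  constructor <;> nlinarith [b0.1, b0.2, b2.1, b2.2]

/-- the density of the bad classes is `2 / l + O(l ^ (-3/2))` -/
theorem gg_asymp (l : ℕ) (hl : l.Prime) (hl3 : 3 < l) (n : ℕ) :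
    |gg ff n l - 2 / l| ≤ 66 / (l * Real.sqrt l) := by
  have hl0 : (3 : ℝ) < l := by exact_mod_cast hl3
  have hL : (0 : ℝ) < l := by linarith
  set s := Real.sqrt l with hs
  have hss : s * s = l := Real.mul_self_sqrt hL.le
  have hs1 : 1 ≤ s := by
    rw [hs, Real.one_le_sqrt]
    linarith
  have hb := Bl_bound l hl hl3 n
  rw [← hs] at hb
  have hg1 := count_lower l hl (by omega) n
  have hg2 := Gl_upper l hl (by omega) n
  unfold gg
  set B : ℝ := ((Bl ff n l).card : ℝ)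
  set G : ℝ := ((Gl n l).card : ℝ)
  have hL2 : 0 < (l : ℝ) ^ 2 := by positivity
  have hG : (l : ℝ) ^ 3 / 2 ≤ G := by nlinarith
  have hG0 : 0 < G := lt_of_lt_of_le (by positivity) hG
  have e1 : B / G - 2 / l = (l * (B - 2 * (l : ℝ) ^ 2) - 2 * (G - (l : ℝ) ^ 3)) / (G * l) := by
    field_simp
    ring
  rw [e1, abs_div, abs_of_pos (mul_pos hG0 hL), div_le_div_iff₀ (mul_pos hG0 hL) (by positivity)]
  have e2 : |l * (B - 2 * (l : ℝ) ^ 2) - 2 * (G - (l : ℝ) ^ 3)| ≤ 33 * ((l : ℝ) ^ 2 * s) := by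
    have h1 : |l * (B - 2 * (l : ℝ) ^ 2)| ≤ 31 * ((l : ℝ) ^ 2 * s) := by
      rw [abs_mul, abs_of_pos hL]
      calc l * |B - 2 * (l : ℝ) ^ 2| ≤ l * (31 * (l * s)) := by gcongr
        _ = _ := by ring
    have h2 : |2 * (G - (l : ℝ) ^ 3)| ≤ 2 * (l : ℝ) ^ 2 := by
      rw [abs_le]
      constructor <;> nlinarith
    have h3 : (l : ℝ) ^ 2 ≤ (l : ℝ) ^ 2 * s := by nlinarith
    refine (abs_sub _ _).trans ?_
    linarith
  calc |l * (B - 2 * (l : ℝ) ^ 2) - 2 * (G - (l : ℝ) ^ 3)| * (l * s) ≤ 33 * ((l : ℝ) ^ 2 * s) * (l * s) := by gcongr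
    _ = 33 * (l : ℝ) ^ 3 * (s * s) := by ring
    _ = 66 * ((l : ℝ) ^ 3 / 2 * l) := by rw [hss]; ring
    _ ≤ 66 * (G * l) := by gcongr

end transfer

end Pool.Agent.HP42.FS
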