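import Pool.Agent.HP42.FS.Sv

/-!
# Main theorems
-/

set_option autoImplicit false
open Finset

namespace Pool.Agent.HP42.FS

open Pool.Agent.W65.FS

lemma log_le_sub (x : ℝ) (hx : 1 ≤ x) : (Real.log x) ^ 2 ≤ 4 * x := by
  -- log x = 2 log √x ≤ 2 √x
  have h0 : 0 < x := by linarith
  have h1 : Real.log x = 2 * Real.log (Real.sqrt x) := by
    rw [Real.log_sqrt h0.le]; ring
  have h2 : Real.log (Real.sqrt x) ≤ Real.sqrt x := by
    have := Real.log_le_sub_one_of_pos (Real.sqrt_pos.2 h0)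
    linarith
  have h3 : 0 ≤ Real.log x := Real.log_nonneg hx
  have h4 : Real.log x ≤ 2 * Real.sqrt x := by rw [h1]; linarith
  calc (Real.log x) ^ 2 ≤ (2 * Real.sqrt x) ^ 2 := pow_le_pow_left₀ h3 h4 2
    _ = 4 * x := by rw [mul_pow, Real.sq_sqrt h0.le]; norm_num

/-- **asymptotic formula** for the number of representations free of small prime factors -/
theorem asymp (η : ℝ) (hη : 0 < η) : ∃ δ : ℝ, 0 < δ ∧ ∃ n0 : ℕ, ∀ n : ℕ, Odd n → n0 ≤ n → ∀ z : ℕ,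
    (z : ℝ) ≤ (n : ℝ) ^ δ →
      |((WW n z).card : ℝ) - (preps n).card * SS n z| ≤ η * ((preps n).card * SS n z) := by
  obtain ⟨C0, hC0, hs⟩ := sieve_formula
  obtain ⟨b1, hb1⟩ := exists_pow_lt_of_lt_one (show (0 : ℝ) < η / 2 by positivity) (show (1 / 2 : ℝ) < 1 by norm_num)
  set b : ℕ := C0 + b1 with hb
  have hbη : (1 / 2 : ℝ) ^ b ≤ η / 2 := by
    calc (1 / 2 : ℝ) ^ b ≤ (1 / 2 : ℝ) ^ b1 := pow_le_pow_of_le_one (by norm_num) (by norm_num) (by omega)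
      _ ≤ η / 2 := hb1.le
  obtain ⟨C, hC, h⟩ := hs b (by omega)
  obtain ⟨c1, hc1, hlow⟩ := preps_lower (1 / 200) (by norm_num)
  obtain ⟨c2, C2, hc2, hC2, hSS⟩ := SS_two_sided
  set E : ℕ := 32 * (C0 * b) + 2 with hE
  have hEr : (2 : ℝ) ≤ E := by rw [hE]; push_cast; nlinarith [show (0:ℝ) ≤ (C0 : ℝ) * b by positivity]
  set δ : ℝ := 1 / (200 * E) with hδ
  have hδ0 : 0 < δ := by positivity
  have hδE : δ * E = 1 / 200 := by rw [hδ]; field_simp
  have hδ1 : δ ≤ 1 / 200 := by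
    rw [hδ, div_le_div_iff₀ (by positivity) (by norm_num)]
    linarith
  -- lower bound for the density
  obtain ⟨n1, hn1⟩ := large_rpow (C * 3 ^ E * (12 / c2) / (η / 2 * c1)) (1 / 50) (by norm_num)
  refine ⟨δ, hδ0, n1 + 1, ?_⟩
  intro n hno hnbig z hz
  have hn : 1 ≤ n := hno.pos
  have hnr : (1 : ℝ) ≤ n := by exact_mod_cast hn
  have hn0 : (0 : ℝ) < n := by linarith
  have hn1' := hn1 n (by omega)
  have hmain := h n z hno
  have hz3 : (z : ℝ) + 2 ≤ 3 * (n : ℝ) ^ δ := by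
    have : 1 ≤ (n : ℝ) ^ δ := Real.one_le_rpow hnr hδ0.le
    linarith
  have hzpos : (0 : ℝ) < (z : ℝ) + 2 := by positivity
  -- density
  have hS : c2 / (12 * (n : ℝ) ^ δ) ≤ SS n z := by
    have hmono : SS n (z + 2) ≤ SS n z := by
      unfold SS
      have hsub : (Icc 3 z).filter Nat.Prime ⊆ (Icc 3 (z + 2)).filter Nat.Prime := by
        apply Finset.filter_subset_filter
        apply Finset.Icc_subset_Icc_right
        omega
      apply Finset.prod_le_prod_of_subset_of_le_one hsub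
      · intro l hl
        rw [Finset.mem_filter, Finset.mem_Icc] at hl
        exact (one_sub_pos n l hl.2 (by omega)).le
      · intro l _ _
        exact one_sub_le n l
    have h1 := (hSS n (z + 2) (by omega)).1
    have h2 : (Real.log ((z + 2 : ℕ) : ℝ)) ^ 2 ≤ 4 * ((z : ℝ) + 2) := by
      have := log_le_sub ((z + 2 : ℕ) : ℝ) (by push_cast; linarith [show (0:ℝ) ≤ z by positivity])
      push_cast at this ⊢
      exact this
    have hlogpos : 0 < Real.log ((z + 2 : ℕ) : ℝ) := Real.log_pos (by push_cast; linarith [show (0:ℝ) ≤ z by positivity])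
    calc c2 / (12 * (n : ℝ) ^ δ) ≤ c2 / (Real.log ((z + 2 : ℕ) : ℝ)) ^ 2 := by
          apply div_le_div_of_nonneg_left hc2.le (by positivity)
          linarith
      _ ≤ _ := h1.trans hmono
  have hP := hlow n hno
  have herr : C * ((z : ℝ) + 2) ^ E * (n : ℝ) ^ (19 / 20 : ℝ) ≤ η / 2 * ((preps n).card * SS n z) := by
    have h1 : ((z : ℝ) + 2) ^ E ≤ 3 ^ E * (n : ℝ) ^ (1 / 200 : ℝ) := by
      calc ((z : ℝ) + 2) ^ E ≤ (3 * (n : ℝ) ^ δ) ^ E := pow_le_pow_left₀ hzpos.le hz3 E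
        _ = 3 ^ E * (n : ℝ) ^ (1 / 200 : ℝ) := by
          rw [mul_pow, ← Real.rpow_natCast ((n : ℝ) ^ δ), ← Real.rpow_mul hn0.le, hδE]
    have h2 : c1 * (n : ℝ) ^ (1 - 1 / 200 : ℝ) * (c2 / 12 * (n : ℝ) ^ (-(1 / 200) : ℝ)) ≤ (preps n).card * SS n z := by
      apply mul_le_mul hP _ (by positivity) (by positivity)
      refine le_trans ?_ hS
      have h3 : (n : ℝ) ^ δ ≤ (n : ℝ) ^ (1 / 200 : ℝ) := Real.rpow_le_rpow_of_exponent_le hnr hδ1
      rw [Real.rpow_neg hn0.le]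
      calc c2 / 12 * ((n : ℝ) ^ (1 / 200 : ℝ))⁻¹ = c2 / (12 * (n : ℝ) ^ (1 / 200 : ℝ)) := by field_simp
        _ ≤ c2 / (12 * (n : ℝ) ^ δ) := by
          apply div_le_div_of_nonneg_left hc2.le (by positivity)
          linarith
    rw [div_le_iff₀ (by positivity)] at hn1'
    have h3 : C * 3 ^ E * (n : ℝ) ^ (1 / 200 + 19 / 20 : ℝ) ≤ η / 2 * (c1 * (n : ℝ) ^ (1 - 1 / 200 : ℝ) * (c2 / 12 * (n : ℝ) ^ (-(1 / 200) : ℝ))) := by
      have e1 : (n : ℝ) ^ (1 - 1 / 200 : ℝ) * (n : ℝ) ^ (-(1 / 200) : ℝ) = (n : ℝ) ^ (99 / 100 : ℝ) := by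
        rw [← Real.rpow_add hn0]; norm_num
      have e2 : η / 2 * (c1 * (n : ℝ) ^ (1 - 1 / 200 : ℝ) * (c2 / 12 * (n : ℝ) ^ (-(1 / 200) : ℝ))) =
          (η / 2 * c1) * (c2 / 12) * (n : ℝ) ^ (99 / 100 : ℝ) := by
        rw [← e1]; ring
      rw [e2]
      have e3 : C * 3 ^ E ≤ (n : ℝ) ^ (1 / 50 : ℝ) * (η / 2 * c1) * (c2 / 12) := by
        have : C * 3 ^ E = (C * 3 ^ E * (12 / c2)) * (c2 / 12) := by field_simp
        rw [this]
        gcongr
      calc C * 3 ^ E * (n : ℝ) ^ (1 / 200 + 19 / 20 : ℝ) ≤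
            ((n : ℝ) ^ (1 / 50 : ℝ) * (η / 2 * c1) * (c2 / 12)) * (n : ℝ) ^ (1 / 200 + 19 / 20 : ℝ) := by gcongr
        _ = (η / 2 * c1) * (c2 / 12) * ((n : ℝ) ^ (1 / 50 : ℝ) * (n : ℝ) ^ (1 / 200 + 19 / 20 : ℝ)) := by ring
        _ ≤ (η / 2 * c1) * (c2 / 12) * (n : ℝ) ^ (99 / 100 : ℝ) := by
          rw [← Real.rpow_add hn0]
          apply mul_le_mul_of_nonneg_left _ (by positivity)
          apply Real.rpow_le_rpow_of_exponent_le hnr
          norm_num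
    calc C * ((z : ℝ) + 2) ^ E * (n : ℝ) ^ (19 / 20 : ℝ) ≤ C * (3 ^ E * (n : ℝ) ^ (1 / 200 : ℝ)) * (n : ℝ) ^ (19 / 20 : ℝ) := by
          gcongr
      _ = C * 3 ^ E * (n : ℝ) ^ (1 / 200 + 19 / 20 : ℝ) := by
          rw [Real.rpow_add hn0]; ring
      _ ≤ η / 2 * (c1 * (n : ℝ) ^ (1 - 1 / 200 : ℝ) * (c2 / 12 * (n : ℝ) ^ (-(1 / 200) : ℝ))) := h3
      _ ≤ _ := by gcongr
  have hPS : 0 ≤ ((preps n).card : ℝ) * SS n z := mul_nonneg (by positivity) (SS_pos n z).le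
  calc |((WW n z).card : ℝ) - (preps n).card * SS n z| ≤ _ := hmain
    _ ≤ η / 2 * ((preps n).card * SS n z) + η / 2 * ((preps n).card * SS n z) := by
        apply add_le_add _ herr
        exact mul_le_mul_of_nonneg_right hbη hPS
    _ = _ := by ring

end Pool.Agent.HP42.FS
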