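import Pool.Agent.HP42.FS.Loc
import Pool.Agent.Helper923.HMertens

/-!
# The size of the product of the local densities
-/

set_option autoImplicit false
open Finset

namespace Pool.Agent.HP42.FS

open Pool.Agent.W65.FS

/-- the product of the local densities -/
noncomputable def SS (n z : ℕ) : ℝ := ∏ l ∈ (Icc 3 z).filter Nat.Prime, (1 - gg ff n l)

lemma gg_nonneg (n l : ℕ) : 0 ≤ gg ff n l := by
  unfold gg
  positivity

lemma one_sub_ge (n l : ℕ) (hl : l.Prime) (hl2 : l ≠ 2) : 1 / (l : ℝ) ^ 4 ≤ 1 - gg ff n l := by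
  classical
  obtain ⟨c, hc, hcn⟩ := local_ff l hl hl2 n
  have hl0 : (0 : ℝ) < l := by exact_mod_cast hl.pos
  have h1 : (Bl ff n l).card + 1 ≤ (Gl n l).card := by
    have hsub : Bl ff n l ⊆ (Gl n l).erase c := by
      intro d hd
      rw [mem_Bl] at hd
      rw [Finset.mem_erase]
      refine ⟨?_, hd.1⟩
      rintro rfl
      exact hcn hd.2
    have h2 := Finset.card_le_card hsub
    rw [Finset.card_erase_of_mem hc] at h2
    have h3 : 0 < (Gl n l).card := Finset.card_pos.2 ⟨c, hc⟩
    omega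
  have h2 : ((Gl n l).card : ℝ) ≤ (l : ℝ) ^ 4 := by exact_mod_cast card_Gl_le n l
  have h3 : (0 : ℝ) < (Gl n l).card := by
    have : 0 < (Gl n l).card := by omega
    exact_mod_cast this
  unfold gg
  have h4 : ((Bl ff n l).card : ℝ) + 1 ≤ (Gl n l).card := by exact_mod_cast h1
  have h5 : 1 - ((Bl ff n l).card : ℝ) / (Gl n l).card = ((Gl n l).card - (Bl ff n l).card) / (Gl n l).card := by
    field_simp
  rw [h5]
  calc 1 / (l : ℝ) ^ 4 ≤ 1 / (Gl n l).card := one_div_le_one_div_of_le h3 h2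
    _ ≤ _ := by
      apply div_le_div_of_nonneg_right _ h3.le
      linarith

lemma one_sub_pos (n l : ℕ) (hl : l.Prime) (hl2 : l ≠ 2) : 0 < 1 - gg ff n l := by
  have hl0 : (0 : ℝ) < l := by exact_mod_cast hl.pos
  exact lt_of_lt_of_le (by positivity) (one_sub_ge n l hl hl2)

lemma one_sub_le (n l : ℕ) : 1 - gg ff n l ≤ 1 := by
  have := gg_nonneg n l
  linarith

lemma SS_pos (n z : ℕ) : 0 < SS n z := by
  unfold SS
  apply Finset.prod_pos
  intro l hl
  rw [Finset.mem_filter, Finset.mem_Icc] at hl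
  exact one_sub_pos n l hl.2 (by omega)

lemma SS_le_one (n z : ℕ) : SS n z ≤ 1 := by
  unfold SS
  apply Finset.prod_le_one
  · intro l hl
    rw [Finset.mem_filter, Finset.mem_Icc] at hl
    exact (one_sub_pos n l hl.2 (by omega)).le
  · intro l _
    exact one_sub_le n l

lemma SS_small (n z N : ℕ) (hN : 1 ≤ N) (hz : z ≤ N) : (1 / (N : ℝ) ^ 4) ^ N ≤ SS n z := by
  have hN0 : (1 : ℝ) ≤ N := by exact_mod_cast hN
  have hle1 : 1 / (N : ℝ) ^ 4 ≤ 1 := by
    rw [div_le_one (by positivity)]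
    exact one_le_pow₀ hN0
  have hcard : ((Icc 3 z).filter Nat.Prime).card ≤ N := by
    calc ((Icc 3 z).filter Nat.Prime).card ≤ (Icc 3 z).card := Finset.card_filter_le _ _
      _ ≤ N := by rw [Nat.card_Icc]; omega
  calc (1 / (N : ℝ) ^ 4) ^ N ≤ (1 / (N : ℝ) ^ 4) ^ ((Icc 3 z).filter Nat.Prime).card :=
        pow_le_pow_of_le_one (by positivity) hle1 hcard
    _ = ∏ l ∈ (Icc 3 z).filter Nat.Prime, (1 / (N : ℝ) ^ 4) := by rw [Finset.prod_const]
    _ ≤ SS n z := by
      unfold SS
      apply Finset.prod_le_prod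
      · intro l _; positivity
      · intro l hl
        rw [Finset.mem_filter, Finset.mem_Icc] at hl
        have hl0 : (0 : ℝ) < l := by exact_mod_cast hl.2.pos
        have hlN : (l : ℝ) ≤ N := by exact_mod_cast hl.1.2.trans hz
        calc 1 / (N : ℝ) ^ 4 ≤ 1 / (l : ℝ) ^ 4 := one_div_le_one_div_of_le (by positivity) (by gcongr)
          _ ≤ _ := one_sub_ge n l hl.2 (by omega)

/-- `-g - g² ≤ log (1 - g) ≤ -g` -/
lemma log_bounds (g : ℝ) (h0 : 0 ≤ g) (h1 : g ≤ 1 / 2) : -g - g ^ 2 ≤ Real.log (1 - g) ∧ Real.log (1 - g) ≤ -g := by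
  constructor
  · have h2 : Real.log (1 - g) = -Real.log ((1 - g)⁻¹) := by rw [Real.log_inv]; ring
    have h3 : Real.log ((1 - g)⁻¹) ≤ g + g ^ 2 := by
      have hpos : 0 < 1 - g := by linarith
      have h4 : (1 - g)⁻¹ ≤ Real.exp (g + g ^ 2) := by
        have h5 := Real.quadratic_le_exp_of_nonneg (show 0 ≤ g + g ^ 2 by positivity)
        refine le_trans ?_ h5
        rw [inv_le_iff_one_le_mul₀ hpos]
        nlinarith [mul_nonneg h0 h0, mul_nonneg (mul_nonneg h0 h0) h0, mul_nonneg (mul_nonneg h0 h0) (mul_nonneg h0 h0),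
          mul_nonneg (mul_nonneg (mul_nonneg h0 h0) h0) (sub_nonneg.2 h1),
          mul_nonneg (mul_nonneg h0 h0) (sub_nonneg.2 h1)]
      calc Real.log ((1 - g)⁻¹) ≤ Real.log (Real.exp (g + g ^ 2)) := Real.log_le_log (inv_pos.2 hpos) h4
        _ = _ := Real.log_exp _
    rw [h2]
    linarith
  · have := Real.log_le_sub_one_of_pos (show 0 < 1 - g by linarith)
    linarith

theorem SS_two_sided : ∃ c C : ℝ, 0 < c ∧ 0 < C ∧ ∀ n z : ℕ, 2 ≤ z →
    c / (Real.log z) ^ 2 ≤ SS n z ∧ SS n z ≤ C / (Real.log z) ^ 2 := by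
  classical
  obtain ⟨CM, hCM, hM⟩ := Pool.Agent.Helper923.HMertens.mertens_ratio
  -- the absolutely convergent part
  set h : ℕ → ℝ := fun m => 66 * (1 / (m : ℝ) ^ (3 / 2 : ℝ)) + 256 * (1 / (m : ℝ) ^ 2) with hh
  have hsum : Summable h := by
    apply Summable.add
    · exact (Real.summable_one_div_nat_rpow.2 (by norm_num)).mul_left _
    · exact (Real.summable_one_div_nat_pow.2 (by norm_num)).mul_left _
  have hnn : ∀ m, 0 ≤ h m := fun m => by rw [hh]; positivity
  set K0 : ℝ := ∑' m, h m with hK0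
  have hK00 : 0 ≤ K0 := tsum_nonneg hnn
  have hK : ∀ s : Finset ℕ, ∑ m ∈ s, h m ≤ K0 := fun s => hsum.sum_le_tsum s (fun m _ => hnn m)
  have hlog20 : 0 < Real.log 20 := Real.log_pos (by norm_num)
  have hlog2 : 0 < Real.log 2 := Real.log_pos (by norm_num)
  set K1 : ℝ := K0 + 2 * (CM / Real.log 20) with hK1
  -- the product over the primes in (20, z]
  have key : ∀ n z : ℕ, 20 ≤ z →
      Real.exp (-K1) * (Real.log 20 / Real.log z) ^ 2 ≤ ∏ l ∈ (Ioc 20 z).filter Nat.Prime, (1 - gg ff n l) ∧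
      ∏ l ∈ (Ioc 20 z).filter Nat.Prime, (1 - gg ff n l) ≤ Real.exp K1 * (Real.log 20 / Real.log z) ^ 2 := by
    intro n z hz
    have hzr : (20 : ℝ) ≤ z := by exact_mod_cast hz
    have hlogz : 0 < Real.log z := Real.log_pos (by linarith)
    set P := (Ioc 20 z).filter Nat.Prime with hP
    have hPp : ∀ l ∈ P, l.Prime ∧ 20 < l := by
      intro l hl
      rw [hP, Finset.mem_filter, Finset.mem_Ioc] at hl
      exact ⟨hl.2, hl.1.1⟩
    have hgl : ∀ l ∈ P, gg ff n l ≤ 16 / l ∧ gg ff n l ≤ 1 / 2 ∧ |gg ff n l - 2 / l| ≤ 66 * (1 / (l : ℝ) ^ (3 / 2 : ℝ)) := by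
      intro l hl
      obtain ⟨hlp, hl20⟩ := hPp l hl
      have hlr : (20 : ℝ) < l := by exact_mod_cast hl20
      have h1 := (gg_bound ff 8 n l hlp (by omega) (Bl_card l hlp (by omega) n)).2
      push_cast at h1
      have h2 : (8 : ℝ) / (l - 1) ≤ 16 / l := by
        rw [div_le_div_iff₀ (by linarith) (by linarith)]
        linarith
      have h3 : (8 : ℝ) / (l - 1) ≤ 1 / 2 := by
        rw [div_le_div_iff₀ (by linarith) (by norm_num)]
        linarith
      refine ⟨h1.trans h2, h1.trans h3, ?_⟩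
      refine (gg_asymp l hlp (by omega) n).trans (le_of_eq ?_)
      have h4 : (l : ℝ) ^ (3 / 2 : ℝ) = l * Real.sqrt l := by
        rw [Real.sqrt_eq_rpow, ← Real.rpow_one_add' (by positivity) (by norm_num)]
        norm_num
      rw [h4]
      ring
    have hM' := hM 20 z (by norm_num) hz
    rw [← hP] at hM'
    push_cast at hM'
    -- logarithm of the product
    have hlogprod : Real.log (∏ l ∈ P, (1 - gg ff n l)) = ∑ l ∈ P, Real.log (1 - gg ff n l) := by
      apply Real.log_prod
      intro l hl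
      exact (one_sub_pos n l (hPp l hl).1 (by have := (hPp l hl).2; omega)).ne'
    have hdiff : |∑ l ∈ P, Real.log (1 - gg ff n l) + 2 * ∑ l ∈ P, (1 : ℝ) / l| ≤ K0 := by
      rw [Finset.mul_sum, ← Finset.sum_add_distrib]
      refine (Finset.abs_sum_le_sum_abs _ _).trans (le_trans (Finset.sum_le_sum fun l hl => ?_) (hK P))
      obtain ⟨h1, h2, h3⟩ := hgl l hl
      have hl20 : (20 : ℝ) < l := by exact_mod_cast (hPp l hl).2
      obtain ⟨h4, h5⟩ := log_bounds (gg ff n l) (gg_nonneg n l) h2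
      have h6 : (gg ff n l) ^ 2 ≤ 256 * (1 / (l : ℝ) ^ 2) := by
        calc (gg ff n l) ^ 2 ≤ (16 / (l : ℝ)) ^ 2 := pow_le_pow_left₀ (gg_nonneg n l) h1 2
          _ = _ := by ring
      have h7 : (2 : ℝ) * (1 / l) = 2 / l := by ring
      simp only [hh]
      rw [h7]
      rw [abs_le] at h3 ⊢
      constructor <;> linarith [h3.1, h3.2, sq_nonneg (gg ff n l), show (0:ℝ) ≤ 256 * (1 / (l : ℝ) ^ 2) by positivity]
    have hlograt : Real.log (Real.log z / Real.log 20) = -Real.log (Real.log 20 / Real.log z) := by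
      rw [← Real.log_inv, inv_div]
    set r : ℝ := Real.log 20 / Real.log z with hr
    have hr0 : 0 < r := by positivity
    have hprodpos : 0 < ∏ l ∈ P, (1 - gg ff n l) := by
      apply Finset.prod_pos
      intro l hl
      exact one_sub_pos n l (hPp l hl).1 (by have := (hPp l hl).2; omega)
    have hr2 : r ^ 2 = Real.exp (2 * Real.log r) := by
      rw [mul_comm, Real.exp_mul, Real.exp_log hr0]
      norm_num
    have hmain : |Real.log (∏ l ∈ P, (1 - gg ff n l)) - 2 * Real.log r| ≤ K1 := by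
      rw [hlogprod]
      rw [hlograt] at hM'
      rw [abs_le] at hdiff hM' ⊢
      rw [hK1]
      constructor <;> linarith [hdiff.1, hdiff.2, hM'.1, hM'.2]
    rw [abs_le] at hmain
    constructor
    · rw [hr2, ← Real.exp_add, ← Real.exp_log hprodpos]
      apply Real.exp_le_exp.2
      linarith [hmain.1]
    · rw [hr2, ← Real.exp_add]
      rw [← Real.exp_log hprodpos]
      apply Real.exp_le_exp.2
      linarith [hmain.2]
  -- decomposition
  have hdec : ∀ n z : ℕ, 20 ≤ z → SS n z = SS n 20 * ∏ l ∈ (Ioc 20 z).filter Nat.Prime, (1 - gg ff n l) := by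
    intro n z hz
    unfold SS
    rw [← Finset.prod_union]
    · congr 1
      ext l
      simp only [Finset.mem_union, Finset.mem_filter, Finset.mem_Icc, Finset.mem_Ioc]
      constructor
      · rintro ⟨⟨h1, h2⟩, h3⟩
        by_cases h4 : l ≤ 20
        · left; exact ⟨⟨h1, h4⟩, h3⟩
        · right; exact ⟨⟨by omega, h2⟩, h3⟩
      · rintro (⟨⟨h1, h2⟩, h3⟩ | ⟨⟨h1, h2⟩, h3⟩)
        · exact ⟨⟨h1, by omega⟩, h3⟩
        · exact ⟨⟨by omega, h2⟩, h3⟩
    · rw [Finset.disjoint_left]
      intro l h1 h2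
      simp only [Finset.mem_filter, Finset.mem_Icc, Finset.mem_Ioc] at h1 h2
      omega
  set c0 : ℝ := (1 / ((20 : ℕ) : ℝ) ^ 4) ^ 20 with hc0
  have hc00 : 0 < c0 := by positivity
  have hc01 : c0 ≤ 1 := by
    rw [hc0]
    apply pow_le_one₀ (by positivity)
    norm_num
  set c : ℝ := c0 * min ((Real.log 2) ^ 2) (Real.exp (-K1) * (Real.log 20) ^ 2) with hc
  set C : ℝ := max ((Real.log 20) ^ 2) (Real.exp K1 * (Real.log 20) ^ 2) with hC
  refine ⟨c, C, ?_, ?_, ?_⟩
  · rw [hc]; positivity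
  · rw [hC]; positivity
  · intro n z hz
    have hzr : (2 : ℝ) ≤ z := by exact_mod_cast hz
    have hlogz : 0 < Real.log z := Real.log_pos (by linarith)
    have hlogz2 : Real.log 2 ≤ Real.log z := Real.log_le_log (by norm_num) hzr
    rcases le_total 20 z with h20 | h20
    · obtain ⟨k1, k2⟩ := key n z h20
      have hs1 := SS_small n 20 20 (by norm_num) le_rfl
      rw [← hc0] at hs1
      have hs2 := SS_le_one n 20
      rw [hdec n z h20]
      constructor
      · calc c / (Real.log z) ^ 2 ≤ (c0 * (Real.exp (-K1) * (Real.log 20) ^ 2)) / (Real.log z) ^ 2 := by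
              rw [hc]
              gcongr
              exact min_le_right _ _
          _ = c0 * (Real.exp (-K1) * (Real.log 20 / Real.log z) ^ 2) := by
              rw [div_pow]; ring
          _ ≤ _ := by
              apply mul_le_mul hs1 k1 (by positivity) (SS_pos n 20).le
      · calc SS n 20 * ∏ l ∈ (Ioc 20 z).filter Nat.Prime, (1 - gg ff n l) ≤ 1 * (Real.exp K1 * (Real.log 20 / Real.log z) ^ 2) := by
              apply mul_le_mul hs2 k2 _ zero_le_one
              exact le_trans (by positivity) k1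
          _ = (Real.exp K1 * (Real.log 20) ^ 2) / (Real.log z) ^ 2 := by
              rw [div_pow]; ring
          _ ≤ C / (Real.log z) ^ 2 := by
              rw [hC]
              gcongr
              exact le_max_right _ _
    · have hs1 := SS_small n z 20 (by norm_num) h20
      rw [← hc0] at hs1
      have hs2 := SS_le_one n z
      have hlogle : Real.log z ≤ Real.log 20 := Real.log_le_log (by linarith) (by exact_mod_cast h20)
      constructor
      · refine le_trans ?_ hs1
        rw [div_le_iff₀ (by positivity), hc]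
        apply mul_le_mul_of_nonneg_left _ hc00.le
        exact (min_le_left _ _).trans (pow_le_pow_left₀ hlog2.le hlogz2 2)
      · refine hs2.trans ?_
        rw [le_div_iff₀ (by positivity), one_mul, hC]
        exact (pow_le_pow_left₀ hlogz.le hlogle 2).trans (le_max_left _ _)

end Pool.Agent.HP42.FS
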