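import Pool.Agent.HP42.FS.Fin
import Pool.Agent.H305R2.MertensE

/-!
# The singular series
-/

set_option autoImplicit false
open Finset Filter Topology

namespace Pool.Agent.HP42.FS

open Pool.Agent.W65.FS

lemma Bl_card_filter (l : ℕ) [NeZero l] (n : ℕ) : (Bl ff n l).card =
    ((univ : Finset (Fin 4 → ZMod l)).filter (fun u =>
      (∑ i, u i ^ 2 = (n : ZMod l) ∧ u ≠ 0) ∧ (u 0 ^ 2 + 3 * u 1 ^ 2 + 5 * u 2 ^ 2 + 7 * u 3 ^ 2) *
        (u 0 ^ 2 + 3 * u 1 ^ 2 + 5 * u 2 ^ 2 + 7 * u 3 ^ 2 - 2) = 0)).card := by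
  classical
  rw [← box_card l (fun u => (∑ i, u i ^ 2 = (n : ZMod l) ∧ u ≠ 0) ∧ (u 0 ^ 2 + 3 * u 1 ^ 2 + 5 * u 2 ^ 2 + 7 * u 3 ^ 2) *
        (u 0 ^ 2 + 3 * u 1 ^ 2 + 5 * u 2 ^ 2 + 7 * u 3 ^ 2 - 2) = 0)]
  congr 1
  unfold Bl Gl
  rw [Finset.filter_filter]
  apply Finset.filter_congr
  intro c _
  rw [ex_iff, ← ZMod.intCast_zmod_eq_zero_iff_dvd, ← ZMod.intCast_zmod_eq_zero_iff_dvd]
  unfold ff pf
  push_cast
  rw [sub_eq_zero]

lemma gg_two (n : ℕ) (hn : Odd n) : gg ff n 2 = 0 := by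
  have h : Bl ff n 2 = ∅ := by
    rw [Finset.eq_empty_iff_forall_notMem]
    intro c hc
    rw [mem_Bl, mem_Gl] at hc
    obtain ⟨⟨-, h1, -⟩, h2⟩ := hc
    push_cast at h1 h2
    have hodd : ¬ (2 : ℤ) ∣ pf c := by
      intro h3
      have h4 : (2 : ℤ) ∣ (n : ℤ) := by
        have h5 : (n : ℤ) = pf c - 2 * (c 1 ^ 2 + 2 * c 2 ^ 2 + 3 * c 3 ^ 2) - ((∑ i, c i ^ 2) - n) := by
          rw [Fin.sum_univ_four]; unfold pf; ring
        rw [h5]
        exact dvd_sub (dvd_sub h3 (dvd_mul_right _ _)) h1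
      have h5 : 2 ∣ n := by exact_mod_cast h4
      exact (Nat.not_even_iff_odd.2 hn) (even_iff_two_dvd.2 h5)
    unfold ff at h2
    rcases (Int.prime_two).dvd_or_dvd h2 with h4 | h4
    · exact hodd h4
    · apply hodd
      have := dvd_add h4 (dvd_refl (2 : ℤ))
      simpa using this
  unfold gg
  rw [h]
  simp

/-- the factors of the singular series -/
noncomputable def FF (n l : ℕ) : ℝ := if l.Prime then (1 - gg ff n l) / (1 - (l : ℝ)⁻¹) ^ 2 else 1

lemma one_sub_inv_pos (l : ℕ) (hl : l.Prime) : (0 : ℝ) < 1 - (l : ℝ)⁻¹ := by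
  have : (2 : ℝ) ≤ l := by exact_mod_cast hl.two_le
  rw [sub_pos]
  exact inv_lt_one_of_one_lt₀ (by linarith)

lemma FF_pos (n l : ℕ) (hn : Odd n) : 0 < FF n l := by
  unfold FF
  split_ifs with h
  · have h1 := one_sub_inv_pos l h
    have h2 : 0 < 1 - gg ff n l := by
      rcases eq_or_ne l 2 with rfl | h2
      · rw [gg_two n hn]; norm_num
      · exact one_sub_pos n l h h2
    positivity
  · exact one_pos

lemma FF_sub_one (n l : ℕ) (hl3 : 3 < l) : |FF n l - 1| ≤ 268 * (1 / (l : ℝ) ^ (3 / 2 : ℝ)) := by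
  unfold FF
  have hl0 : (3 : ℝ) < l := by exact_mod_cast hl3
  have hL : (0 : ℝ) < l := by linarith
  split_ifs with h
  · have hg := gg_asymp l h hl3 n
    have h4 : (l : ℝ) ^ (3 / 2 : ℝ) = l * Real.sqrt l := by
      rw [Real.sqrt_eq_rpow, ← Real.rpow_one_add' (by positivity) (by norm_num)]
      norm_num
    rw [h4]
    set s := Real.sqrt l with hs
    have hss : s * s = l := Real.mul_self_sqrt hL.le
    have hs1 : 1 ≤ s := by
      rw [hs, Real.one_le_sqrt]
      linarith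
    have hsl : s ≤ l := by nlinarith
    set d : ℝ := 1 - (l : ℝ)⁻¹ with hd
    have hd1 : 1 / 2 ≤ d := by
      have : (l : ℝ)⁻¹ ≤ 1 / 2 := by
        rw [inv_le_comm₀ hL (by norm_num)]
        norm_num
        linarith
      rw [hd]; linarith
    have hd0 : 0 < d := by linarith
    have e1 : (1 - gg ff n l) / d ^ 2 - 1 = ((2 / l - gg ff n l) - 1 / (l : ℝ) ^ 2) / d ^ 2 := by
      have hd2 : 1 - gg ff n l - d ^ 2 = (2 / l - gg ff n l) - 1 / (l : ℝ) ^ 2 := by
        rw [hd]
        field_simp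
        ring
      rw [← hd2, sub_div (1 - gg ff n l) (d ^ 2) (d ^ 2), div_self (pow_ne_zero 2 hd0.ne')]
    rw [e1, abs_div, abs_of_pos (show 0 < d ^ 2 by positivity), div_le_iff₀ (by positivity)]
    have h5 : |(2 / l - gg ff n l) - 1 / (l : ℝ) ^ 2| ≤ 67 * (1 / (l * s)) := by
      have h6 : |2 / l - gg ff n l| ≤ 66 * (1 / (l * s)) := by
        rw [abs_sub_comm]
        refine hg.trans (le_of_eq ?_)
        ring
      have h7 : |1 / (l : ℝ) ^ 2| ≤ 1 * (1 / (l * s)) := by
        rw [abs_of_pos (by positivity), one_mul]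
        apply one_div_le_one_div_of_le (by positivity)
        nlinarith
      refine (abs_sub _ _).trans ?_
      linarith
    have h8 : 1 / 4 ≤ d ^ 2 := by nlinarith
    have h9 : 0 ≤ 1 / (l * s) := by positivity
    nlinarith
  · rw [sub_self, abs_zero]
    positivity

lemma summ : Summable (fun l : ℕ => 268 * (1 / (l : ℝ) ^ (3 / 2 : ℝ))) :=
  (Real.summable_one_div_nat_rpow.2 (by norm_num)).mul_left _

lemma multipliable_FF (n : ℕ) : Multipliable (FF n) := by
  have h : Summable (fun l => FF n l - 1) := by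
    apply Summable.of_norm_bounded_eventually_nat summ
    filter_upwards [eventually_gt_atTop 3] with l hl
    rw [Real.norm_eq_abs]
    exact FF_sub_one n l hl
  have h2 := multipliable_one_add_of_summable (f := fun l => FF n l - 1) (by
    simpa [Real.norm_eq_abs] using h.norm)
  simpa using h2

/-- the singular series -/
noncomputable def Sg (n : ℕ) : ℝ := ∏' l, FF n l

/-- the partial products -/
noncomputable def AA (n z : ℕ) : ℝ := ∏ l ∈ range (z + 1), FF n l

lemma AA_pos (n z : ℕ) (hn : Odd n) : 0 < AA n z := Finset.prod_pos fun l _ => FF_pos n l hn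

lemma tail (ε : ℝ) (hε : 0 < ε) : ∃ z1 : ℕ, ∀ n z : ℕ, Odd n → z1 ≤ z → |Sg n - AA n z| ≤ ε * AA n z := by
  obtain ⟨κ, hκ0, hκ⟩ : ∃ κ : ℝ, 0 < κ ∧ Real.exp κ - 1 ≤ ε := by
    refine ⟨Real.log (1 + ε), Real.log_pos (by linarith), ?_⟩
    rw [Real.exp_log (by linarith)]
    linarith
  obtain ⟨s0, hs0⟩ := summable_iff_vanishing_norm.1 summ κ hκ0
  refine ⟨s0.sup id + 3, ?_⟩
  intro n z hn hz
  have hprod : HasProd (FF n) (Sg n) := (multipliable_FF n).hasProd
  have hA := AA_pos n z hn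
  have hev : ∀ᶠ t : Finset ℕ in atTop, |∏ l ∈ t, FF n l - AA n z| ≤ ε * AA n z := by
    filter_upwards [eventually_ge_atTop (range (z + 1))] with t ht
    have ht' : range (z + 1) ⊆ t := ht
    have hsplit : ∏ l ∈ t, FF n l = AA n z * ∏ l ∈ t \ range (z + 1), FF n l := by
      rw [mul_comm]
      exact (Finset.prod_sdiff ht').symm
    have hdj : Disjoint (t \ range (z + 1)) s0 := by
      rw [Finset.disjoint_left]
      intro l hl hl0
      rw [Finset.mem_sdiff, Finset.mem_range] at hl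
      have h1 : l ≤ s0.sup id := Finset.le_sup (f := id) hl0
      omega
    have h1 := hs0 _ hdj
    have h2 : ∑ l ∈ t \ range (z + 1), ‖FF n l - 1‖ ≤ κ := by
      refine le_trans (Finset.sum_le_sum fun l hl => ?_) (le_trans (le_abs_self _) (by rw [← Real.norm_eq_abs]; exact h1.le))
      rw [Finset.mem_sdiff, Finset.mem_range] at hl
      rw [Real.norm_eq_abs]
      exact FF_sub_one n l (by omega)
    have h3 := Finset.norm_prod_one_add_sub_one_le (t \ range (z + 1)) (fun l => FF n l - 1)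
    simp only [add_sub_cancel] at h3
    have h4 : |∏ l ∈ t \ range (z + 1), FF n l - 1| ≤ ε := by
      rw [← Real.norm_eq_abs]
      refine h3.trans ?_
      have := Real.exp_le_exp.2 h2
      linarith
    rw [hsplit]
    have e1 : AA n z * ∏ l ∈ t \ range (z + 1), FF n l - AA n z = AA n z * (∏ l ∈ t \ range (z + 1), FF n l - 1) := by ring
    rw [e1, abs_mul, abs_of_pos hA, mul_comm]
    exact mul_le_mul_of_nonneg_right h4 hA.le
  have hlim : Tendsto (fun t : Finset ℕ => |∏ l ∈ t, FF n l - AA n z|) atTop (𝓝 |Sg n - AA n z|) :=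
    (hprod.sub_const _).abs
  exact le_of_tendsto hlim hev

/-- Mertens' product -/
noncomputable def VV (z : ℕ) : ℝ := ∏ l ∈ (Icc 1 z).filter Nat.Prime, (1 - (l : ℝ)⁻¹)

lemma VV_pos (z : ℕ) : 0 < VV z := Finset.prod_pos fun l hl => one_sub_inv_pos l (Finset.mem_filter.1 hl).2

lemma SS_eq (n z : ℕ) (hn : Odd n) : SS n z = AA n z * VV z ^ 2 := by
  have h1 : AA n z = ∏ l ∈ (Icc 1 z).filter Nat.Prime, ((1 - gg ff n l) / (1 - (l : ℝ)⁻¹) ^ 2) := by
    unfold AA FF
    rw [← Finset.prod_filter]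
    congr 1
    ext l
    simp only [Finset.mem_filter, Finset.mem_range, Finset.mem_Icc]
    constructor
    · rintro ⟨h2, h3⟩
      exact ⟨⟨h3.pos, by omega⟩, h3⟩
    · rintro ⟨⟨h2, h4⟩, h3⟩
      exact ⟨by omega, h3⟩
  have h2 : SS n z = ∏ l ∈ (Icc 1 z).filter Nat.Prime, (1 - gg ff n l) := by
    unfold SS
    apply Finset.prod_subset
    · apply Finset.filter_subset_filter
      apply Finset.Icc_subset_Icc_left
      norm_num
    · intro l hl hl'
      rw [Finset.mem_filter, Finset.mem_Icc] at hl hl'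
      have h3 := hl.2.two_le
      have h4 : l = 2 := by
        by_contra h5
        apply hl'
        exact ⟨⟨by omega, hl.1.2⟩, hl.2⟩
      rw [h4, gg_two n hn, sub_zero]
  rw [h1, h2]
  unfold VV
  rw [← Finset.prod_pow, ← Finset.prod_mul_distrib]
  apply Finset.prod_congr rfl
  intro l hl
  have := one_sub_inv_pos l (Finset.mem_filter.1 hl).2
  rw [div_mul_cancel₀ _ (pow_ne_zero 2 this.ne')]

lemma VV_asymp (ε : ℝ) (hε : 0 < ε) : ∃ z1 : ℕ, ∀ z : ℕ, z1 ≤ z →
    |VV z ^ 2 - Real.exp (-2 * Real.eulerMascheroniConstant) / (Real.log z) ^ 2| ≤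
      ε * (Real.exp (-2 * Real.eulerMascheroniConstant) / (Real.log z) ^ 2) := by
  have h1 := Pool.Agent.H305R2.mertens_three
  have h2 : Tendsto (fun z : ℕ => (VV z ^ 2) * (Real.log z) ^ 2) atTop
      (𝓝 (Real.exp (-2 * Real.eulerMascheroniConstant))) := by
    have h3 := (h1.inv₀ (Real.exp_pos _).ne').pow 2
    have e1 : (Real.exp Real.eulerMascheroniConstant)⁻¹ ^ 2 = Real.exp (-2 * Real.eulerMascheroniConstant) := by
      rw [← Real.exp_neg, ← Real.exp_nat_mul]
      congr 1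
      push_cast
      ring
    rw [e1] at h3
    refine h3.congr fun z => ?_
    unfold VV
    rw [Finset.prod_inv_distrib, inv_div, div_pow, inv_pow, div_inv_eq_mul, mul_comm]
  set E := Real.exp (-2 * Real.eulerMascheroniConstant) with hE
  have hE0 : 0 < E := Real.exp_pos _
  have h4 := (Metric.tendsto_atTop.1 h2) (ε * E) (by positivity)
  obtain ⟨N, hN⟩ := h4
  refine ⟨N + 2, fun z hz => ?_⟩
  have h5 := hN z (by omega)
  rw [Real.dist_eq] at h5
  have hlog : 0 < Real.log z := Real.log_pos (by exact_mod_cast (show 1 < z by omega))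
  have e1 : VV z ^ 2 - E / (Real.log z) ^ 2 = (VV z ^ 2 * (Real.log z) ^ 2 - E) / (Real.log z) ^ 2 := by
    field_simp
  rw [e1, abs_div, abs_of_pos (show 0 < (Real.log z) ^ 2 by positivity), div_le_iff₀ (by positivity)]
  refine h5.le.trans (le_of_eq ?_)
  field_simp

/-- **asymptotic formula with the singular series** -/
theorem asymp_series : (∃ c C : ℝ, 0 < c ∧ ∀ n : ℕ, Odd n → c ≤ Sg n ∧ Sg n ≤ C) ∧
    ∀ ε : ℝ, 0 < ε → ∃ δ : ℝ, 0 < δ ∧ ∃ N : ℕ, ∀ n z : ℕ, Odd n → N ≤ z → (z : ℝ) ≤ (n : ℝ) ^ δ →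
      |((WW n z).card : ℝ) - Real.exp (-2 * Real.eulerMascheroniConstant) * Sg n * (preps n).card / (Real.log z) ^ 2| ≤
        ε * (Real.exp (-2 * Real.eulerMascheroniConstant) * Sg n * (preps n).card / (Real.log z) ^ 2) := by
  obtain ⟨c2, C2, hc2, hC2, hSS⟩ := SS_two_sided
  constructor
  · obtain ⟨z1, hz1⟩ := tail (1 / 2) (by norm_num)
    obtain ⟨z, hz⟩ : ∃ z, z = z1 + 2 := ⟨_, rfl⟩
    have hlog : 0 < Real.log z := Real.log_pos (by exact_mod_cast (show 1 < z by omega))
    have hV0 := VV_pos z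
    have hV1 : VV z ≤ 1 := by
      unfold VV
      apply Finset.prod_le_one
      · intro l hl
        exact (one_sub_inv_pos l (Finset.mem_filter.1 hl).2).le
      · intro l _
        have : (0 : ℝ) ≤ (l : ℝ)⁻¹ := by positivity
        linarith
    refine ⟨1 / 2 * (c2 / (Real.log z) ^ 2), 3 / 2 * (1 / VV z ^ 2), by positivity, ?_⟩
    intro n hn
    have h1 := abs_le.1 (hz1 n z hn (by omega))
    have hA0 := AA_pos n z hn
    have hS := SS_eq n z hn
    have hS1 := (hSS n z (by omega)).1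
    have hS2 := SS_le_one n z
    constructor
    · have h2 : c2 / (Real.log z) ^ 2 ≤ AA n z := by
        refine hS1.trans ?_
        rw [hS]
        have : VV z ^ 2 ≤ 1 := pow_le_one₀ hV0.le hV1
        nlinarith
      linarith [h1.1]
    · have h2 : AA n z ≤ 1 / VV z ^ 2 := by
        rw [le_div_iff₀ (by positivity), ← hS]
        exact hS2
      linarith [h1.2]
  · intro ε hε
    obtain ⟨η, hη⟩ : ∃ η : ℝ, η = min (ε / 10) (1 / 10) := ⟨_, rfl⟩
    have hη0 : 0 < η := by rw [hη]; exact lt_min (by positivity) (by norm_num)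
    have hη1 : η ≤ 1 / 10 := by rw [hη]; exact min_le_right _ _
    have hηε : 10 * η ≤ ε := by
      have : η ≤ ε / 10 := by rw [hη]; exact min_le_left _ _
      linarith
    obtain ⟨δ, hδ, n0, hW⟩ := asymp η hη0
    obtain ⟨z1, hz1⟩ := tail η hη0
    obtain ⟨z2, hz2⟩ := VV_asymp η hη0
    refine ⟨min δ 1, lt_min hδ one_pos, n0 + z1 + z2 + 2, ?_⟩
    intro n z hn hzN hzn
    have hn1 : (1 : ℝ) ≤ n := by exact_mod_cast hn.pos
    have hzn1 : (z : ℝ) ≤ n := by
      refine hzn.trans ?_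
      calc (n : ℝ) ^ min δ 1 ≤ (n : ℝ) ^ (1 : ℝ) := Real.rpow_le_rpow_of_exponent_le hn1 (min_le_right _ _)
        _ = n := Real.rpow_one _
    have hzn2 : z ≤ n := by exact_mod_cast hzn1
    have hznδ : (z : ℝ) ≤ (n : ℝ) ^ δ := hzn.trans (Real.rpow_le_rpow_of_exponent_le hn1 (min_le_left _ _))
    have k1 := hW n hn (by omega) z hznδ
    have k2 := hz1 n z hn (by omega)
    have k3 := hz2 z (by omega)
    rw [SS_eq n z hn] at k1
    have hlog : 0 < Real.log z := Real.log_pos (by exact_mod_cast (show 1 < z by omega))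
    obtain ⟨t, ht⟩ : ∃ t : ℝ, t = Real.exp (-2 * Real.eulerMascheroniConstant) / (Real.log z) ^ 2 := ⟨_, rfl⟩
    have ht0 : 0 < t := by rw [ht]; positivity
    have e1 : Real.exp (-2 * Real.eulerMascheroniConstant) * Sg n * (preps n).card / (Real.log z) ^ 2 =
        (preps n).card * (Sg n * t) := by rw [ht]; ring
    rw [e1]
    rw [← ht] at k3
    have hA0 := AA_pos n z hn
    have hV0 := VV_pos z
    obtain ⟨A, hA⟩ : ∃ A, A = AA n z := ⟨_, rfl⟩
    obtain ⟨v, hv⟩ : ∃ v, v = VV z ^ 2 := ⟨_, rfl⟩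
    obtain ⟨S, hS⟩ : ∃ S, S = Sg n := ⟨_, rfl⟩
    obtain ⟨Pn, hPn⟩ : ∃ Pn : ℝ, Pn = (preps n).card := ⟨_, rfl⟩
    have hP0 : 0 ≤ Pn := by rw [hPn]; positivity
    have hv0 : 0 < v := by rw [hv]; positivity
    rw [← hA, ← hv, ← hPn] at k1
    rw [← hS, ← hA] at k2
    rw [← hv] at k3
    rw [← hA] at hA0
    rw [← hS, ← hPn]
    obtain ⟨k2a, k2b⟩ := abs_le.1 k2
    obtain ⟨k3a, k3b⟩ := abs_le.1 k3
    -- A v versus S t
    have hS0 : 0 < S := by nlinarith
    have hup : A * v ≤ (1 + 3 * η) * (S * t) := by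
      have h1 : A ≤ (1 + 10 / 9 * η) * S := by nlinarith
      have h2 : v ≤ (1 + η) * t := by linarith
      calc A * v ≤ ((1 + 10 / 9 * η) * S) * ((1 + η) * t) := by gcongr
        _ = ((1 + 10 / 9 * η) * (1 + η)) * (S * t) := by ring
        _ ≤ _ := by
          apply mul_le_mul_of_nonneg_right _ (by positivity)
          nlinarith
    have hlo : (1 - 3 * η) * (S * t) ≤ A * v := by
      have h1 : (1 - η) * S ≤ A := by nlinarith
      have h2 : (1 - η) * t ≤ v := by linarith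
      calc (1 - 3 * η) * (S * t) ≤ ((1 - η) * (1 - η)) * (S * t) := by
            apply mul_le_mul_of_nonneg_right _ (by positivity)
            nlinarith
        _ = ((1 - η) * S) * ((1 - η) * t) := by ring
        _ ≤ A * v := by
          apply mul_le_mul h1 h2 _ hA0.le
          apply mul_nonneg _ ht0.le
          linarith
    have hd : |Pn * (A * v) - Pn * (S * t)| ≤ 3 * η * (Pn * (S * t)) := by
      rw [← mul_sub, abs_mul, abs_of_nonneg hP0]
      have : |A * v - S * t| ≤ 3 * η * (S * t) := by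
        rw [abs_le]
        constructor <;> linarith
      calc Pn * |A * v - S * t| ≤ Pn * (3 * η * (S * t)) := by gcongr
        _ = _ := by ring
    have hPAv : Pn * (A * v) ≤ 2 * (Pn * (S * t)) := by
      have : A * v ≤ 2 * (S * t) := by
        refine hup.trans ?_
        apply mul_le_mul_of_nonneg_right _ (by positivity)
        linarith
      calc Pn * (A * v) ≤ Pn * (2 * (S * t)) := by gcongr
        _ = _ := by ring
    have hPSt : 0 ≤ Pn * (S * t) := by positivity
    calc |((WW n z).card : ℝ) - Pn * (S * t)| ≤ |((WW n z).card : ℝ) - Pn * (A * v)| + |Pn * (A * v) - Pn * (S * t)| :=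
          abs_sub_le _ _ _
      _ ≤ η * (Pn * (A * v)) + 3 * η * (Pn * (S * t)) := add_le_add k1 hd
      _ ≤ η * (2 * (Pn * (S * t))) + 3 * η * (Pn * (S * t)) := by gcongr
      _ = 5 * η * (Pn * (S * t)) := by ring
      _ ≤ ε * (Pn * (S * t)) := by
          apply mul_le_mul_of_nonneg_right _ hPSt
          linarith

end Pool.Agent.HP42.FS
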