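import Pool.Agent.HP42.FS.Mer
import Pool.Agent.W65.FS.Final

/-!
# The asymptotic sieve formula
-/

set_option autoImplicit false
open Finset

namespace Pool.Agent.HP42.FS

open Pool.Agent.W65.FS

/-- primitive representations with `p (p - 2)` free of prime factors up to `z` -/
noncomputable def WW (n z : ℕ) : Finset (Fin 4 → ℤ) := by
  classical
  exact (preps n).filter (fun X => ∀ l : ℕ, l.Prime → l ≤ z → ¬ (l : ℤ) ∣ ff X)

lemma mem_preps (n : ℕ) (X : Fin 4 → ℤ) : X ∈ preps n ↔ ∑ i, X i ^ 2 = n ∧ gc X = 1 := by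
  unfold preps
  rw [Finset.mem_filter, mem_reps]

lemma red_notMem (n l : ℕ) (hl : l.Prime) (X : Fin 4 → ℤ) (hX : X ∈ preps n) :
    red l X ∉ Bl ff n l ↔ ¬ (l : ℤ) ∣ ff X := by
  rw [mem_preps] at hX
  have h1 : red l X ∈ Gl n l := red_mem n l hl X hX.1 hX.2
  have h3 := ff_congr l X (red l X) (red_dvd l X)
  rw [mem_Bl]
  constructor
  · intro h h2
    apply h
    refine ⟨h1, ?_⟩
    have h4 := dvd_sub h2 h3
    rwa [sub_sub_cancel] at h4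
  · rintro h ⟨_, h2⟩
    apply h
    have h4 := dvd_add h3 h2
    rwa [sub_add_cancel] at h4

lemma two_not_dvd (n : ℕ) (hn : Odd n) (X : Fin 4 → ℤ) (hX : X ∈ preps n) : ¬ (2 : ℤ) ∣ ff X := by
  rw [mem_preps] at hX
  intro h2
  have h3 := pf_odd n hn X hX.1
  unfold ff at h2
  rcases (Int.prime_two).dvd_or_dvd h2 with h4 | h4
  · exact h3 h4
  · apply h3
    have := dvd_add h4 (dvd_refl (2 : ℤ))
    simpa using this

lemma mem_WW (n z : ℕ) (hn : Odd n) (X : Fin 4 → ℤ) : X ∈ WW n z ↔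
    X ∈ preps n ∧ ∀ l ∈ (Icc 3 z).filter Nat.Prime, red l X ∉ Bl ff n l := by
  classical
  unfold WW
  rw [Finset.mem_filter]
  constructor
  · rintro ⟨h1, h2⟩
    refine ⟨h1, fun l hl => ?_⟩
    rw [Finset.mem_filter, Finset.mem_Icc] at hl
    rw [red_notMem n l hl.2 X h1]
    exact h2 l hl.2 hl.1.2
  · rintro ⟨h1, h2⟩
    refine ⟨h1, fun l hl hlz => ?_⟩
    rcases eq_or_ne l 2 with rfl | hl2
    · exact_mod_cast two_not_dvd n hn X h1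
    · rw [← red_notMem n l hl X h1]
      apply h2
      rw [Finset.mem_filter, Finset.mem_Icc]
      have := hl.two_le
      exact ⟨⟨by omega, hlz⟩, hl⟩

/-- the scale of the sieve -/
lemma exists_J (z : ℕ) : ∃ J : ℕ, z ≤ 2 ^ 2 ^ J ∧ 2 ^ 2 ^ J ≤ (z + 2) ^ 2 := by
  classical
  have hex : ∃ J : ℕ, z ≤ 2 ^ 2 ^ J := by
    refine ⟨z, ?_⟩
    have h1 : z < 2 ^ z := Nat.lt_two_pow_self
    calc z ≤ 2 ^ z := h1.le
      _ ≤ 2 ^ 2 ^ z := Nat.pow_le_pow_right (by norm_num) h1.le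
  refine ⟨Nat.find hex, Nat.find_spec hex, ?_⟩
  rcases Nat.eq_zero_or_pos (Nat.find hex) with h | h
  · rw [h]
    simp only [pow_zero, pow_one]
    have h1 : 2 ^ 2 ≤ (z + 2) ^ 2 := Nat.pow_le_pow_left (by omega) 2
    omega
  · have h1 := Nat.find_min hex (m := Nat.find hex - 1) (by omega)
    push Not at h1
    have h2 : 2 ^ 2 ^ (Nat.find hex) = (2 ^ 2 ^ (Nat.find hex - 1)) ^ 2 := by
      rw [← pow_mul, ← pow_succ]
      congr 2
      omega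
    rw [h2]
    exact Nat.pow_le_pow_left (by omega) 2

/-- the count of the primitive representations in bad classes modulo the primes of `T` and in good classes modulo the
primes of `T1` -/
lemma dist_step (C : ℝ) (hdist : ∀ (n M : ℕ), 1 ≤ n → 0 < M → Odd M → Squarefree M →
    ∀ v : Fin 4 → ℤ, Good n M v → ∀ T : Finset ℕ, (∀ l ∈ T, l.Prime ∧ ¬ l ∣ M ∧ l ≠ 2 ∧ (Gl n l).Nonempty) →
    ∀ S : ℕ → Finset (Fin 4 → ℤ), (∀ l ∈ T, S l ⊆ Gl n l) →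
      |((((prc n M v).filter (fun X => ∀ l ∈ T, red l X ∈ S l)).card : ℕ) : ℝ) -
        ((prc n M v).card : ℝ) * ∏ l ∈ T, (((S l).card : ℝ) / (Gl n l).card)| ≤
      C * (M : ℝ) ^ 11 * ((∏ l ∈ T, l : ℕ) : ℝ) ^ 15 * (n : ℝ) ^ (19 / 20 : ℝ))
    (n : ℕ) (hn : 1 ≤ n) (T1 T : Finset ℕ) (h1p : ∀ l ∈ T1, l.Prime ∧ l ≠ 2) (h2p : ∀ l ∈ T, l.Prime ∧ l ≠ 2)
    (hTT : Disjoint T1 T) :
    |((((preps n).filter (fun X => ∀ l ∈ T1, red l X ∉ Bl ff n l)).filter (fun X => ∀ l ∈ T, red l X ∈ Bl ff n l)).card : ℝ) -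
      (preps n).card * (∏ l ∈ T1, (1 - gg ff n l)) * ∏ l ∈ T, gg ff n l| ≤
      C * ((∏ l ∈ T1 ∪ T, l : ℕ) : ℝ) ^ 15 * (n : ℝ) ^ (19 / 20 : ℝ) := by
  classical
  obtain ⟨SL, hSL⟩ : ∃ SL : ℕ → Finset (Fin 4 → ℤ), SL = fun l => if l ∈ T1 then Gl n l \ Bl ff n l else Bl ff n l := ⟨_, rfl⟩
  have hSL1 : ∀ l ∈ T1, SL l = Gl n l \ Bl ff n l := fun l hl => by rw [hSL]; exact if_pos hl
  have hSL2 : ∀ l ∈ T, SL l = Bl ff n l := fun l hl => by rw [hSL]; exact if_neg (Finset.disjoint_right.1 hTT hl)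
  have hBsub : ∀ l, Bl ff n l ⊆ Gl n l := fun l c hc => ((mem_Bl _ _ _ _).1 hc).1
  have hp : ∀ l ∈ T1 ∪ T, l.Prime ∧ l ≠ 2 := by
    intro l hl
    rcases Finset.mem_union.1 hl with h | h
    · exact h1p l h
    · exact h2p l h
  have h1 := hdist n 1 hn one_pos odd_one squarefree_one 0 (good_one n) (T1 ∪ T)
    (fun l hl => by
      have hlp := hp l hl
      refine ⟨hlp.1, fun h => hlp.1.one_lt.ne' (Nat.dvd_one.1 h), hlp.2, ?_⟩
      obtain ⟨c, hc, _⟩ := local_ff l hlp.1 hlp.2 n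
      exact ⟨c, hc⟩)
    SL (fun l hl => by
      rcases Finset.mem_union.1 hl with h | h
      · rw [hSL1 l h]; exact Finset.sdiff_subset
      · rw [hSL2 l h]; exact hBsub l)
  rw [prc_one] at h1
  have h2 : ∏ l ∈ T1 ∪ T, (((SL l).card : ℝ) / (Gl n l).card) =
      (∏ l ∈ T1, (1 - gg ff n l)) * ∏ l ∈ T, gg ff n l := by
    rw [Finset.prod_union hTT]
    congr 1
    · apply Finset.prod_congr rfl
      intro l hl
      rw [hSL1 l hl]
      have hpos : (Gl n l).card ≠ 0 := by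
        obtain ⟨c, hc, _⟩ := local_ff l (h1p l hl).1 (h1p l hl).2 n
        exact (Finset.card_pos.2 ⟨c, hc⟩).ne'
      have hpos' : ((Gl n l).card : ℝ) ≠ 0 := by exact_mod_cast hpos
      rw [Finset.card_sdiff_of_subset (hBsub l), Nat.cast_sub (Finset.card_le_card (hBsub l)), sub_div, div_self hpos']
      rfl
    · apply Finset.prod_congr rfl
      intro l hl
      rw [hSL2 l hl]
      rfl
  rw [h2] at h1
  have h3 : ((preps n).filter (fun X => ∀ l ∈ T1, red l X ∉ Bl ff n l)).filter (fun X => ∀ l ∈ T, red l X ∈ Bl ff n l) =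
      (preps n).filter (fun X => ∀ l ∈ T1 ∪ T, red l X ∈ SL l) := by
    rw [Finset.filter_filter]
    apply Finset.filter_congr
    intro X hX
    constructor
    · rintro ⟨h5, h6⟩ l hl
      rcases Finset.mem_union.1 hl with h7 | h7
      · rw [hSL1 l h7, Finset.mem_sdiff]
        rw [mem_preps] at hX
        exact ⟨red_mem n l (h1p l h7).1 X hX.1 hX.2, h5 l h7⟩
      · rw [hSL2 l h7]
        exact h6 l h7
    · intro h5
      refine ⟨fun l hl => ?_, fun l hl => ?_⟩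
      · have h6 := h5 l (Finset.mem_union_left _ hl)
        rw [hSL1 l hl, Finset.mem_sdiff] at h6
        exact h6.2
      · have h6 := h5 l (Finset.mem_union_right _ hl)
        rw [hSL2 l hl] at h6
        exact h6
  rw [h3, mul_assoc]
  refine h1.trans (le_of_eq ?_)
  rw [Nat.cast_one, one_pow, mul_one]

lemma err_sum (C0 b J : ℕ) (C M0 N : ℝ) (hC : 0 < C) (hM0 : 0 ≤ M0) (hN : 0 ≤ N) (P : Finset ℕ) (hP : ∀ p ∈ P, p.Prime) (y : ℝ)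
    (hy : ((2 ^ 2 ^ J : ℕ) : ℝ) ≤ y ^ 2) :
    ((J : ℝ) + 2) * ∑ T ∈ P.powerset.filter (fun T : Finset ℕ => ∏ p ∈ T, p ≤ (2 ^ 2 ^ J) ^ (C0 * b)),
        C * (M0 * ((∏ l ∈ T, l : ℕ) : ℝ)) ^ 15 * N ≤
      2 * C * M0 ^ 15 * y ^ (32 * (C0 * b) + 2) * N := by
  classical
  obtain ⟨Z, hZ⟩ : ∃ Z : ℕ, Z = 2 ^ 2 ^ J := ⟨_, rfl⟩
  rw [← hZ] at hy ⊢
  have hZr : (0 : ℝ) ≤ Z := by positivity
  have h1 : ∀ T ∈ P.powerset.filter (fun T : Finset ℕ => ∏ p ∈ T, p ≤ Z ^ (C0 * b)),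
      C * (M0 * ((∏ l ∈ T, l : ℕ) : ℝ)) ^ 15 * N ≤ C * (M0 * (Z : ℝ) ^ (C0 * b)) ^ 15 * N := by
    intro T hT
    have h2 := (Finset.mem_filter.1 hT).2
    have h3 : ((∏ l ∈ T, l : ℕ) : ℝ) ≤ (Z : ℝ) ^ (C0 * b) := by exact_mod_cast h2
    have h4 : (0 : ℝ) ≤ ((∏ l ∈ T, l : ℕ) : ℝ) := Nat.cast_nonneg _
    exact mul_le_mul_of_nonneg_right (mul_le_mul_of_nonneg_left
      (pow_le_pow_left₀ (mul_nonneg hM0 h4) (mul_le_mul_of_nonneg_left h3 hM0) 15) hC.le) hN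
  have h2 := Finset.sum_le_sum h1
  rw [Finset.sum_const, nsmul_eq_mul] at h2
  have h3 := card_sets P hP (Z ^ (C0 * b))
  have h4 : (((P.powerset.filter (fun T : Finset ℕ => ∏ p ∈ T, p ≤ Z ^ (C0 * b))).card : ℕ) : ℝ) ≤
      (Z : ℝ) ^ (C0 * b) := by exact_mod_cast h3
  have hJz : (J : ℝ) + 2 ≤ 2 * Z := by
    have h5 : J + 2 ≤ 2 * Z := by
      have h6 : J < 2 ^ J := Nat.lt_two_pow_self
      have h7 : 2 ^ J < 2 ^ 2 ^ J := Nat.lt_two_pow_self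
      omega
    exact_mod_cast h5
  have hX0 : 0 ≤ C * (M0 * (Z : ℝ) ^ (C0 * b)) ^ 15 * N := by positivity
  have hsum0 : 0 ≤ ∑ T ∈ P.powerset.filter (fun T : Finset ℕ => ∏ p ∈ T, p ≤ Z ^ (C0 * b)),
      C * (M0 * ((∏ l ∈ T, l : ℕ) : ℝ)) ^ 15 * N := by
    apply Finset.sum_nonneg
    intro T _
    positivity
  calc ((J : ℝ) + 2) * ∑ T ∈ P.powerset.filter (fun T : Finset ℕ => ∏ p ∈ T, p ≤ Z ^ (C0 * b)),
        C * (M0 * ((∏ l ∈ T, l : ℕ) : ℝ)) ^ 15 * N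
      ≤ (2 * Z) * ((Z : ℝ) ^ (C0 * b) * (C * (M0 * (Z : ℝ) ^ (C0 * b)) ^ 15 * N)) := by
        apply mul_le_mul hJz (h2.trans (mul_le_mul_of_nonneg_right h4 hX0)) hsum0 (by positivity)
    _ = 2 * C * M0 ^ 15 * (Z : ℝ) ^ (16 * (C0 * b) + 1) * N := by ring
    _ ≤ 2 * C * M0 ^ 15 * (y ^ 2) ^ (16 * (C0 * b) + 1) * N := by
        apply mul_le_mul_of_nonneg_right _ hN
        apply mul_le_mul_of_nonneg_left _ (by positivity)
        exact pow_le_pow_left₀ hZr hy _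
    _ = 2 * C * M0 ^ 15 * y ^ (32 * (C0 * b) + 2) * N := by
        rw [← pow_mul]
        congr 3
        ring

/-- the formula with an explicit error term -/
theorem sieve_formula : ∃ C0 : ℕ, 1 ≤ C0 ∧ ∀ b : ℕ, C0 ≤ b → ∃ C : ℝ, 0 < C ∧ ∀ n z : ℕ, Odd n →
    |((WW n z).card : ℝ) - (preps n).card * SS n z| ≤
      (1 / 2 : ℝ) ^ b * ((preps n).card * SS n z) + C * ((z : ℝ) + 2) ^ (32 * (C0 * b) + 2) * (n : ℝ) ^ (19 / 20 : ℝ) := by
  classical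
  obtain ⟨C0, hC0, hFL⟩ := Pool.Agent.H20R2.fLem 8
  obtain ⟨C, hC, hdist⟩ := distribution
  refine ⟨C0, hC0, fun b hb => ?_⟩
  obtain ⟨z0, hz0⟩ : ∃ z0 : ℕ, z0 = C0 + 26 := ⟨_, rfl⟩
  obtain ⟨T0, hT0⟩ : ∃ T0 : Finset ℕ, T0 = (Icc 3 z0).filter Nat.Prime := ⟨_, rfl⟩
  obtain ⟨M0, hM0⟩ : ∃ M0 : ℕ, M0 = ∏ l ∈ T0, l := ⟨_, rfl⟩
  have hT0p : ∀ l ∈ T0, l.Prime ∧ l ≠ 2 ∧ l ≤ z0 := by
    intro l hl
    rw [hT0, Finset.mem_filter, Finset.mem_Icc] at hl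
    exact ⟨hl.2, by omega, hl.1.2⟩
  have hM0pos : 0 < M0 := by
    rw [hM0]
    exact Finset.prod_pos fun l hl => (hT0p l hl).1.pos
  refine ⟨2 * C * (M0 : ℝ) ^ 15, by positivity, ?_⟩
  intro n z hno
  have hn : 1 ≤ n := hno.pos
  obtain ⟨J, hJ1, hJ2⟩ := exists_J z
  -- small and large primes
  obtain ⟨T1, hT1⟩ : ∃ T1 : Finset ℕ, T1 = (Icc 3 (min z z0)).filter Nat.Prime := ⟨_, rfl⟩
  have hT1sub : T1 ⊆ T0 := by
    intro l hl
    rw [hT1, Finset.mem_filter, Finset.mem_Icc] at hl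
    rw [hT0, Finset.mem_filter, Finset.mem_Icc]
    exact ⟨⟨hl.1.1, hl.1.2.trans (min_le_right _ _)⟩, hl.2⟩
  obtain ⟨P, hP⟩ : ∃ P : Finset ℕ, P = (Ioc z0 z).filter Nat.Prime := ⟨_, rfl⟩
  have hPp : ∀ p ∈ P, p.Prime ∧ z0 < p ∧ p ≤ z := by
    intro p hp
    rw [hP, Finset.mem_filter, Finset.mem_Ioc] at hp
    exact ⟨hp.2, hp.1.1, hp.1.2⟩
  have hP2 : ∀ p ∈ P, p ≠ 2 := fun p hp => by have := (hPp p hp).2.1; omega
  have hunion : (Icc 3 z).filter Nat.Prime = T1 ∪ P := by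
    ext l
    rw [hT1, hP]
    simp only [Finset.mem_union, Finset.mem_filter, Finset.mem_Icc, Finset.mem_Ioc, le_min_iff]
    constructor
    · rintro ⟨⟨h1, h2⟩, h3⟩
      by_cases h4 : l ≤ z0
      · left; exact ⟨⟨h1, h2, h4⟩, h3⟩
      · right; exact ⟨⟨by omega, h2⟩, h3⟩
    · rintro (⟨⟨h1, h2, _⟩, h3⟩ | ⟨⟨h1, h2⟩, h3⟩)
      · exact ⟨⟨h1, h2⟩, h3⟩
      · exact ⟨⟨by omega, h2⟩, h3⟩
  have hdisj : Disjoint T1 P := by
    rw [Finset.disjoint_left]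
    intro l h1 h2
    have h3 := (hT0p l (hT1sub h1)).2.2
    have h4 := (hPp l h2).2.1
    omega
  have hgb : ∀ p ∈ P, 0 ≤ gg ff n p ∧ gg ff n p ≤ (8 : ℕ) / ((p : ℝ) - 1) := fun p hp =>
    gg_bound ff 8 n p (hPp p hp).1 (hP2 p hp) (Bl_card p (hPp p hp).1 (hP2 p hp) n)
  -- the sets
  obtain ⟨A0, hA0⟩ : ∃ A0 : Finset (Fin 4 → ℤ), A0 = (preps n).filter (fun X => ∀ l ∈ T1, red l X ∉ Bl ff n l) := ⟨_, rfl⟩
  obtain ⟨AX, hAX⟩ : ∃ AX : ℝ, AX = (preps n).card * ∏ l ∈ T1, (1 - gg ff n l) := ⟨_, rfl⟩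
  have hAX0 : 0 ≤ AX := by
    rw [hAX]
    apply mul_nonneg (by positivity)
    apply Finset.prod_nonneg
    intro l hl
    exact (one_sub_pos n l (hT0p l (hT1sub hl)).1 (hT0p l (hT1sub hl)).2.1).le
  obtain ⟨e, he⟩ := exists_injective_nat (Fin 4 → ℤ)
  obtain ⟨Ω, hΩ⟩ : ∃ Ω : Finset ℕ, Ω = A0.map ⟨e, he⟩ := ⟨_, rfl⟩
  obtain ⟨hit, hhit⟩ : ∃ hit : ℕ → ℕ → Prop, hit = fun p m => ∀ X, e X = m → red p X ∈ Bl ff n p := ⟨_, rfl⟩
  have hhit' : ∀ p X, hit p (e X) ↔ red p X ∈ Bl ff n p := by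
    intro p X
    rw [hhit]
    constructor
    · intro h; exact h X rfl
    · intro h Y hY
      rw [he hY]; exact h
  have hcount : ∀ (Q : (Fin 4 → ℤ) → Prop) (R : ℕ → Prop) [DecidablePred Q] [DecidablePred R], (∀ X, R (e X) ↔ Q X) →
      ∑ m ∈ Ω.filter R, (1 : ℝ) = ((A0.filter Q).card : ℝ) := by
    intro Q R _ _ hQR
    rw [Finset.sum_const, nsmul_eq_mul, mul_one, hΩ, Finset.filter_map, Finset.card_map]
    congr 2
    ext X
    simp only [Finset.mem_filter, Function.comp, Function.Embedding.coeFn_mk, hQR]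
  have hfl := hFL b J z0 P (gg ff n) hb (by omega) (fun p hp => ⟨(hPp p hp).1, (hPp p hp).2.1, (hPp p hp).2.2.trans hJ1⟩)
    (fun p hp => hgb p hp) Ω (fun _ => 1) hit AX
    (fun T => C * ((M0 : ℝ) * ((∏ l ∈ T, l : ℕ) : ℝ)) ^ 15 * (n : ℝ) ^ (19 / 20 : ℝ)) (fun _ _ => zero_le_one) hAX0
    (fun T hT _ => by
      have hTT : Disjoint T1 T := Finset.disjoint_of_subset_right hT hdisj
      have h1 := dist_step C hdist n hn T1 T (fun l hl => ⟨(hT0p l (hT1sub hl)).1, (hT0p l (hT1sub hl)).2.1⟩)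
        (fun l hl => ⟨(hPp l (hT hl)).1, hP2 l (hT hl)⟩) hTT
      rw [← hA0, ← hAX] at h1
      rw [hcount (fun X => ∀ l ∈ T, red l X ∈ Bl ff n l) (fun m => ∀ p ∈ T, hit p m) (fun X => by simp only [hhit'])]
      refine h1.trans ?_
      have h4 : ((∏ l ∈ T1 ∪ T, l : ℕ) : ℝ) ≤ (M0 : ℝ) * ((∏ l ∈ T, l : ℕ) : ℝ) := by
        rw [Finset.prod_union hTT]
        have h5 : (∏ l ∈ T1, l : ℕ) ≤ M0 := by
          rw [hM0]
          exact Finset.prod_le_prod_of_subset_of_one_le' hT1sub (fun l hl _ => (hT0p l hl).1.pos)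
        rw [Nat.cast_mul]
        exact mul_le_mul_of_nonneg_right ((Nat.cast_le (α := ℝ)).2 h5) (Nat.cast_nonneg _)
      exact mul_le_mul_of_nonneg_right (mul_le_mul_of_nonneg_left (pow_le_pow_left₀ (Nat.cast_nonneg _) h4 15) hC.le)
        (Real.rpow_nonneg (Nat.cast_nonneg _) _))
  -- the sifted set
  have hScard : ∑ m ∈ Ω.filter (fun m => ∀ p ∈ P, ¬ hit p m), (1 : ℝ) = ((WW n z).card : ℝ) := by
    rw [hcount (fun X => ∀ l ∈ P, red l X ∉ Bl ff n l) (fun m => ∀ p ∈ P, ¬ hit p m) (fun X => by simp only [hhit'])]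
    congr 2
    ext X
    rw [mem_WW n z hno, Finset.mem_filter, hA0, Finset.mem_filter, hunion]
    constructor
    · rintro ⟨⟨h4, h5⟩, h6⟩
      refine ⟨h4, fun l hl => ?_⟩
      rcases Finset.mem_union.1 hl with h7 | h7
      · exact h5 l h7
      · exact h6 l h7
    · rintro ⟨h4, h5⟩
      exact ⟨⟨h4, fun l hl => h5 l (Finset.mem_union_left _ hl)⟩, fun l hl => h5 l (Finset.mem_union_right _ hl)⟩
  have hV : AX * ∏ p ∈ P, (1 - gg ff n p) = (preps n).card * SS n z := by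
    rw [hAX]
    unfold SS
    rw [hunion, Finset.prod_union hdisj, mul_assoc]
  rw [hScard, hV] at hfl
  refine hfl.trans ?_
  rw [add_le_add_iff_left]
  have hyz : ((2 ^ 2 ^ J : ℕ) : ℝ) ≤ ((z : ℝ) + 2) ^ 2 := by exact_mod_cast hJ2
  exact err_sum C0 b J C M0 _ hC (Nat.cast_nonneg _) (Real.rpow_nonneg (Nat.cast_nonneg _) _) P (fun p hp => (hPp p hp).1)
    ((z : ℝ) + 2) hyz

end Pool.Agent.HP42.FS
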